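import Pool.Agent.U450.RL.Coer

set_option autoImplicit false
set_option linter.unusedSectionVars false

/-! The classes of short vectors, and a basis over the integral group ring. -/

namespace Pool.Agent.U450.RL

open MonoidAlgebra

universe u v

variable {G : Type u} [Group G] {ι : Type v} [Fintype ι] [DecidableEq ι]
  {H : Matrix ι ι (MonoidAlgebra ℤ G)}

/-- translation -/
noncomputable def gs (g : G) (x : ι → MonoidAlgebra ℤ G) : ι → MonoidAlgebra ℤ G :=
  (single g 1 : MonoidAlgebra ℤ G) • x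

theorem gs_gs (g h : G) (x : ι → MonoidAlgebra ℤ G) : gs g (gs h x) = gs (g * h) x := by
  unfold gs
  rw [smul_smul, single_mul_single, one_mul]

theorem gs_one (x : ι → MonoidAlgebra ℤ G) : gs 1 x = x := by
  unfold gs
  rw [← one_def, one_smul]

theorem gs_inv_gs (g : G) (x : ι → MonoidAlgebra ℤ G) : gs g⁻¹ (gs g x) = x := by
  rw [gs_gs, inv_mul_cancel, gs_one]

theorem gs_gs_inv (g : G) (x : ι → MonoidAlgebra ℤ G) : gs g (gs g⁻¹ x) = x := by
  rw [gs_gs, mul_inv_cancel, gs_one]

theorem tf_gs (g : G) (x y : ι → MonoidAlgebra ℤ G) : tf H (gs g x) (gs g y) = tf H x y :=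
  tf_smul H g x y

theorem tf_gs_left (g : G) (x y : ι → MonoidAlgebra ℤ G) :
    tf H (gs g x) y = tf H x (gs g⁻¹ y) := by
  rw [← tf_gs g⁻¹, gs_inv_gs]

theorem gs_R (g : G) {x : ι → MonoidAlgebra ℤ G} (hx : x ∈ R (tf H)) : gs g x ∈ R (tf H) := by
  rcases hx with hx | ⟨h1, h2⟩
  · left; rw [tf_gs]; exact hx
  · right
    refine ⟨by rw [tf_gs]; exact h1, fun y hy => ?_⟩
    rw [tf_gs_left]
    exact h2 _ (by rw [tf_gs]; exact hy)

theorem gs_rel (g : G) {x y : ι → MonoidAlgebra ℤ G} (h : rel (tf H) x y) :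
    rel (tf H) (gs g x) (gs g y) := by
  obtain ⟨z, hz, h1, h2⟩ := h
  exact ⟨gs g z, gs_R g hz, by rwa [tf_gs], by rwa [tf_gs]⟩

variable (hG : ∀ g : G, ∀ k : ℕ, 0 < k → g ^ k = 1 → g = 1)
  (hpd : PD (tf H)) (hcl : ∀ x ∈ R (tf H), {y | y ∈ R (tf H) ∧ rel (tf H) x y}.Finite)

include hG hpd hcl in
theorem stab {x : ι → MonoidAlgebra ℤ G} (hx : x ∈ R (tf H)) {g : G}
    (hg : rel (tf H) (gs g x) x) : g = 1 := by
  classical
  by_contra hne
  have hmem : ∀ m : ℕ, gs (g ^ m) x ∈ {y | y ∈ R (tf H) ∧ rel (tf H) x y} := by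
    intro m
    refine ⟨gs_R _ hx, ?_⟩
    induction m with
    | zero => rw [pow_zero, gs_one]; exact hpd.rel_refl hx
    | succ m ih =>
      have h1 := gs_rel (g ^ m) (hpd.rel_symm hg)
      rw [gs_gs, ← pow_succ] at h1
      exact hpd.rel_trans hx (gs_R _ hx) (gs_R _ hx) ih h1
  have hx0 : x ≠ 0 := by
    intro h
    have := hpd.self_ne hx
    rw [h] at this
    simp at this
  obtain ⟨i, hi⟩ := Function.ne_iff.1 hx0
  have h2 : (x i).coeff ≠ 0 := fun h => hi (coeff_eq_zero.1 h)
  obtain ⟨h, hh⟩ := Finsupp.ne_iff.1 h2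
  have hfin : (⋃ y ∈ {y | y ∈ R (tf H) ∧ rel (tf H) x y},
      ((y i).coeff.support : Set G)).Finite :=
    (hcl x hx).biUnion fun y _ => Finset.finite_toSet _
  have hinj : Function.Injective fun m : ℕ => g ^ m * h := by
    intro m n hmn
    have hmn' : g ^ m = g ^ n := mul_right_cancel hmn
    by_contra hne'
    rcases Nat.lt_or_gt_of_ne hne' with hlt | hlt
    · refine hne (hG g (n - m) (by omega) ?_)
      have h3 : g ^ n = g ^ m * g ^ (n - m) := by rw [← pow_add]; congr 1; omega
      rw [← hmn'] at h3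
      exact (mul_eq_left.1 h3.symm)
    · refine hne (hG g (m - n) (by omega) ?_)
      have h3 : g ^ m = g ^ n * g ^ (m - n) := by rw [← pow_add]; congr 1; omega
      rw [hmn'] at h3
      exact (mul_eq_left.1 h3.symm)
  refine Set.infinite_of_injective_forall_mem hinj ?_ hfin
  intro m
  refine Set.mem_biUnion (hmem m) ?_
  rw [Finset.mem_coe, Finsupp.mem_support_iff]
  change ((single (g ^ m) 1 : MonoidAlgebra ℤ G) * x i).coeff (g ^ m * h) ≠ 0
  rw [coeff_single_mul_mul, one_mul]
  exact hh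

/-- the orbits of classes -/
def st (hpd : PD (tf H)) : Setoid (R (tf H)) where
  r x y := ∃ g, rel (tf H) (gs g x.1) y.1
  iseqv := by
    refine ⟨fun x => ⟨1, by rw [gs_one]; exact hpd.rel_refl x.2⟩, ?_, ?_⟩
    · rintro x y ⟨g, hg⟩
      refine ⟨g⁻¹, hpd.rel_symm ?_⟩
      have := gs_rel g⁻¹ hg
      rwa [gs_inv_gs] at this
    · rintro x y z ⟨g, hg⟩ ⟨k, hk⟩
      refine ⟨k * g, ?_⟩
      have h1 := gs_rel k hg
      rw [gs_gs] at h1
      exact hpd.rel_trans (gs_R _ x.2) (gs_R _ y.2) z.2 h1 hk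

/-- representatives -/
noncomputable def rp (hpd : PD (tf H)) (o : Quotient (st hpd)) : ι → MonoidAlgebra ℤ G :=
  (Quotient.out o).1

theorem rp_mem (o : Quotient (st hpd)) : rp hpd o ∈ R (tf H) := (Quotient.out o).2

theorem rp_inj {o o' : Quotient (st hpd)} {g : G}
    (h : rel (tf H) (gs g (rp hpd o)) (rp hpd o')) : o = o' := by
  rw [← Quotient.out_eq o, ← Quotient.out_eq o']
  exact Quotient.sound ⟨g, h⟩

/-- the span of the class of the representative -/
noncomputable def W (hpd : PD (tf H)) (o : Quotient (st hpd)) :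
    Submodule ℤ (ι → MonoidAlgebra ℤ G) :=
  Submodule.span ℤ {y | y ∈ R (tf H) ∧ rel (tf H) (rp hpd o) y}

include hcl in
theorem W_finite (o : Quotient (st hpd)) : Module.Finite ℤ (W hpd o) :=
  Module.Finite.span_of_finite ℤ (hcl _ (rp_mem hpd o))

include hpd in
theorem tors (x : ι → MonoidAlgebra ℤ G) (n : ℤ) (h : n • x = 0) : n = 0 ∨ x = 0 := by
  by_contra hcon
  push Not at hcon
  have h1 := hpd.pos x hcon.2
  have h2 : tf H (n • x) x = 0 := by rw [h]; simp
  rw [map_smul, LinearMap.smul_apply, smul_eq_mul] at h2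
  rcases mul_eq_zero.1 h2 with h3 | h3
  · exact hcon.1 h3
  · omega

include hcl in
theorem W_free (o : Quotient (st hpd)) : Module.Free ℤ (W hpd o) := by
  have := W_finite hpd hcl o
  have : Module.IsTorsionFree ℤ (W hpd o) := by
    refine Module.IsTorsionFree.mk fun n hn x y hxy => ?_
    have hxy' : n • (x - y) = 0 := by
      have : n • x = n • y := hxy
      rw [smul_sub, this, sub_self]
    have h1 := congrArg (Subtype.val) hxy'
    rcases tors hpd (x - y).1 n (by simpa using h1) with h2 | h2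
    · exact absurd h2 hn.ne_zero
    · exact sub_eq_zero.1 (Subtype.ext h2)
  exact Module.free_of_finite_type_torsion_free'

include hG hcl in
theorem W_orth {o o' : Quotient (st hpd)} {g : G} (h : ¬ (o = o' ∧ g = 1))
    {x y : ι → MonoidAlgebra ℤ G} (hx : x ∈ W hpd o) (hy : y ∈ W hpd o') :
    tf H (gs g x) y = 0 := by
  have h1 : ∀ x ∈ {y | y ∈ R (tf H) ∧ rel (tf H) (rp hpd o) y},
      ∀ y ∈ {y | y ∈ R (tf H) ∧ rel (tf H) (rp hpd o') y}, tf H (gs g x) y = 0 := by
    rintro x ⟨hx, hx'⟩ y ⟨hy, hy'⟩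
    refine hpd.orth (gs_R _ hx) fun hrel => h ?_
    have h2 : rel (tf H) (gs g (rp hpd o)) (rp hpd o') := by
      refine hpd.rel_trans (gs_R _ (rp_mem hpd o)) (gs_R _ hx) (rp_mem hpd o') (gs_rel g hx') ?_
      exact hpd.rel_trans (gs_R _ hx) hy (rp_mem hpd o') hrel (hpd.rel_symm hy')
    have h3 := rp_inj hpd h2
    subst h3
    exact ⟨rfl, stab hG hpd hcl (rp_mem hpd o) h2⟩
  refine Submodule.span_induction (p := fun x _ => tf H (gs g x) y = 0) ?_ ?_ ?_ ?_ hx
  · intro x hx
    refine Submodule.span_induction (p := fun y _ => tf H (gs g x) y = 0) ?_ ?_ ?_ ?_ hy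
    · intro y hy; exact h1 x hx y hy
    · simp
    · intro a b _ _ ha hb; rw [map_add, ha, hb, add_zero]
    · intro n a _ ha; rw [map_smul, ha, smul_zero]
  · rw [gs, smul_zero]; simp
  · intro a b _ _ ha hb
    rw [gs, smul_add, map_add, LinearMap.add_apply]
    change tf H (gs g a) y + tf H (gs g b) y = 0
    rw [ha, hb, add_zero]
  · intro n a _ ha
    have : gs g (n • a) = n • gs g a := by
      unfold gs; exact smul_comm _ _ _
    rw [this, map_smul, LinearMap.smul_apply, ha, smul_zero]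

include hG hpd hcl in
/-- There is a basis over the group ring whose Gram matrix is integral. -/
theorem exists_family (hgen : Submodule.span ℤ (R (tf H)) = ⊤) :
    ∃ (J : Type (max u v)) (f : J → ι → MonoidAlgebra ℤ G) (m : J → J → ℤ),
      (∀ i j, hf H (f i) (f j) = single 1 (m i j)) ∧ LinearIndependent ℤ f ∧
      Submodule.span (MonoidAlgebra ℤ G) (Set.range f) = ⊤ := by
  classical
  have hfin := W_finite hpd hcl
  have hfree := W_free hpd hcl
  let b := fun o => Module.Free.chooseBasis ℤ (W hpd o)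
  let f : (Σ o, Module.Free.ChooseBasisIndex ℤ (W hpd o)) → ι → MonoidAlgebra ℤ G :=
    fun j => (b j.1 j.2 : ι → MonoidAlgebra ℤ G)
  have hfW : ∀ j, f j ∈ W hpd j.1 := fun j => (b j.1 j.2).2
  have hrange : ∀ o, Submodule.span ℤ (Set.range fun k => (b o k : ι → MonoidAlgebra ℤ G))
      = W hpd o := by
    intro o
    have h1 : (Set.range fun k => (b o k : ι → MonoidAlgebra ℤ G))
        = (W hpd o).subtype '' Set.range (b o) := by
      rw [← Set.range_comp]; rfl
    rw [h1, Submodule.span_image, (b o).span_eq, Submodule.map_top, Submodule.range_subtype]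
  refine ⟨_, f, fun i j => tf H (f i) (f j), ?_, ?_, ?_⟩
  · intro i j
    ext g
    rw [coeff_hf, coeff_single, Finsupp.single_apply]
    by_cases hg : 1 = g
    · subst hg
      rw [if_pos rfl, inv_one, ← one_def, one_smul]
    · rw [if_neg hg]
      exact W_orth hG hpd hcl (fun h => hg (inv_eq_one.1 h.2).symm) (hfW i) (hfW j)
  · refine linearIndependent_iUnion_finite (R := ℤ)
      (f := fun o k => (b o k : ι → MonoidAlgebra ℤ G)) ?_ ?_
    · intro o
      exact (b o).linearIndependent.map' (W hpd o).subtype (Submodule.ker_subtype _)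
    · intro o t _ hot
      rw [hrange, Submodule.disjoint_def]
      intro x hx hx'
      have h1 : (⨆ i ∈ t, Submodule.span ℤ (Set.range fun k => (b i k : ι → MonoidAlgebra ℤ G)))
          ≤ LinearMap.ker (tf H x) := by
        refine iSup₂_le fun i hi => ?_
        rw [hrange]
        intro y hy
        rw [LinearMap.mem_ker]
        have h2 := W_orth hG hpd hcl (o := o) (o' := i) (g := 1)
          (fun h => hot (h.1 ▸ hi)) hx hy
        rwa [gs_one] at h2
      exact hpd.eq_zero (LinearMap.mem_ker.1 (h1 hx'))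
  · rw [eq_top_iff]
    have h1 : (⊤ : Submodule ℤ (ι → MonoidAlgebra ℤ G)) ≤
        (Submodule.span (MonoidAlgebra ℤ G) (Set.range f)).restrictScalars ℤ := by
      rw [← hgen, Submodule.span_le]
      intro y hy
      change y ∈ Submodule.span (MonoidAlgebra ℤ G) (Set.range f)
      obtain ⟨g, hg⟩ : ∃ g, rel (tf H) (gs g (rp hpd (Quotient.mk (st hpd) ⟨y, hy⟩))) y :=
        Quotient.exact (Quotient.out_eq (Quotient.mk (st hpd) ⟨y, hy⟩))
      have h2 : gs g⁻¹ y ∈ W hpd (Quotient.mk (st hpd) ⟨y, hy⟩) := by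
        refine Submodule.subset_span ⟨gs_R _ hy, ?_⟩
        have := gs_rel g⁻¹ hg
        rwa [gs_inv_gs] at this
      rw [← hrange] at h2
      have h3 : Submodule.span ℤ (Set.range fun k =>
          (b (Quotient.mk (st hpd) ⟨y, hy⟩) k : ι → MonoidAlgebra ℤ G)) ≤
          (Submodule.span (MonoidAlgebra ℤ G) (Set.range f)).restrictScalars ℤ := by
        rw [Submodule.span_le]
        rintro _ ⟨k, rfl⟩
        exact Submodule.subset_span ⟨⟨_, k⟩, rfl⟩
      have h4 : gs g⁻¹ y ∈ Submodule.span (MonoidAlgebra ℤ G) (Set.range f) := h3 h2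
      have h5 := Submodule.smul_mem _ (single g 1 : MonoidAlgebra ℤ G) h4
      have h6 : (single g 1 : MonoidAlgebra ℤ G) • gs g⁻¹ y = y := gs_gs_inv g y
      rwa [h6] at h5
    intro y _
    exact h1 Submodule.mem_top

end Pool.Agent.U450.RL
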