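import Mathlib

set_option autoImplicit false

/-! The involution of the integral group ring and the trace form. -/

namespace Pool.Agent.U450.RL

open MonoidAlgebra Matrix

variable {G : Type*} [Group G]

/-- The involution `g ↦ g⁻¹` of the integral group ring. -/
noncomputable def bar (a : MonoidAlgebra ℤ G) : MonoidAlgebra ℤ G :=
  .ofCoeff (Finsupp.equivMapDomain (Equiv.inv G) a.coeff)

theorem coeff_bar (a : MonoidAlgebra ℤ G) (g : G) : (bar a).coeff g = a.coeff g⁻¹ := by
  rfl

theorem bar_add (a b : MonoidAlgebra ℤ G) : bar (a + b) = bar a + bar b := by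
  ext g; simp [coeff_bar]

theorem bar_neg (a : MonoidAlgebra ℤ G) : bar (-a) = -bar a := by
  ext g; simp [coeff_bar]

theorem bar_sub (a b : MonoidAlgebra ℤ G) : bar (a - b) = bar a - bar b := by
  ext g; simp [coeff_bar]

theorem bar_zero : bar (0 : MonoidAlgebra ℤ G) = 0 := by
  ext g; simp [coeff_bar]

theorem bar_sum {κ : Type*} (s : Finset κ) (f : κ → MonoidAlgebra ℤ G) :
    bar (∑ i ∈ s, f i) = ∑ i ∈ s, bar (f i) := by
  classical
  induction s using Finset.induction_on with
  | empty => simp [bar_zero]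
  | insert a s ha ih => rw [Finset.sum_insert ha, Finset.sum_insert ha, bar_add, ih]

theorem bar_bar (a : MonoidAlgebra ℤ G) : bar (bar a) = a := by
  ext g; simp [coeff_bar]

theorem bar_single (g : G) (n : ℤ) : bar (single g n) = single g⁻¹ n := by
  classical
  ext h
  rw [coeff_bar, coeff_single, coeff_single, Finsupp.single_apply, Finsupp.single_apply]
  by_cases h1 : g = h⁻¹
  · rw [if_pos h1, if_pos (by rw [h1, inv_inv])]
  · rw [if_neg h1, if_neg (fun h2 => h1 (by rw [← h2, inv_inv]))]

theorem bar_mul (a b : MonoidAlgebra ℤ G) : bar (a * b) = bar b * bar a := by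
  induction a using MonoidAlgebra.induction_linear with
  | zero => simp [bar_zero]
  | add x y hx hy => rw [add_mul, bar_add, hx, hy, bar_add, mul_add]
  | single g n =>
    induction b using MonoidAlgebra.induction_linear with
    | zero => simp [bar_zero]
    | add x y hx hy => rw [mul_add, bar_add, hx, hy, bar_add, add_mul]
    | single h m =>
      rw [single_mul_single, bar_single, bar_single, bar_single, single_mul_single,
        _root_.mul_inv_rev, mul_comm m n]

theorem bar_one : bar (1 : MonoidAlgebra ℤ G) = 1 := by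
  rw [one_def, bar_single, inv_one]

/-- The trace: the coefficient of the neutral element. -/
noncomputable def tr : MonoidAlgebra ℤ G →ₗ[ℤ] ℤ where
  toFun a := a.coeff 1
  map_add' a b := by simp
  map_smul' n a := by
    rw [coeff_smul_apply]; rfl

theorem tr_apply (a : MonoidAlgebra ℤ G) : tr a = a.coeff 1 := rfl

theorem tr_bar (a : MonoidAlgebra ℤ G) : tr (bar a) = tr a := by
  rw [tr_apply, coeff_bar, inv_one, tr_apply]

theorem tr_mul_comm (a b : MonoidAlgebra ℤ G) : tr (a * b) = tr (b * a) := by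
  induction a using MonoidAlgebra.induction_linear with
  | zero => simp
  | add x y hx hy => rw [add_mul, mul_add, map_add, map_add, hx, hy]
  | single g n =>
    rw [tr_apply, tr_apply, coeff_single_mul_apply, coeff_mul_single_apply, mul_one, one_mul,
      mul_comm]

theorem tr_single_mul (g : G) (n : ℤ) (a : MonoidAlgebra ℤ G) :
    tr (single g n * a) = n * a.coeff g⁻¹ := by
  rw [tr_apply, coeff_single_mul_apply, mul_one]

theorem tr_mul_bar (a b : MonoidAlgebra ℤ G) :
    tr (a * bar b) = ∑ g ∈ a.coeff.support, a.coeff g * b.coeff g := by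
  rw [tr_apply, coeff_mul_apply_left, Finsupp.sum]
  refine Finset.sum_congr rfl fun g _ => ?_
  rw [coeff_bar, mul_one, inv_inv]

theorem nsq_eq (a : MonoidAlgebra ℤ G) :
    tr (a * bar a) = ∑ g ∈ a.coeff.support, (a.coeff g) ^ 2 := by
  rw [tr_mul_bar]
  exact Finset.sum_congr rfl fun g _ => (sq _).symm

theorem nsq_nonneg (a : MonoidAlgebra ℤ G) : 0 ≤ tr (a * bar a) := by
  rw [nsq_eq]
  exact Finset.sum_nonneg fun g _ => sq_nonneg _

theorem tr_mul_bar_comm (a b : MonoidAlgebra ℤ G) : tr (a * bar b) = tr (b * bar a) := by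
  rw [← tr_bar, bar_mul, bar_bar]

/-- twice the absolute value of the inner product is at most the sum of the squares -/
theorem two_abs_le (a b : MonoidAlgebra ℤ G) :
    2 * |tr (a * bar b)| ≤ tr (a * bar a) + tr (b * bar b) := by
  have h1 := nsq_nonneg (a + b)
  have h2 := nsq_nonneg (a - b)
  rw [bar_add, mul_add, add_mul, add_mul, map_add, map_add, map_add, tr_mul_bar_comm b a] at h1
  rw [bar_sub, mul_sub, sub_mul, sub_mul, map_sub, map_sub, map_sub, tr_mul_bar_comm b a] at h2
  rcases abs_cases (tr (a * bar b)) with ⟨h, _⟩ | ⟨h, _⟩ <;> rw [h] <;> linarith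

/-- Schur test -/
theorem schur (c : MonoidAlgebra ℤ G) : ∃ C : ℕ, ∀ a b : MonoidAlgebra ℤ G,
    |tr (a * c * bar b)| ≤ C * (tr (a * bar a) + tr (b * bar b)) := by
  induction c using MonoidAlgebra.induction_linear with
  | zero =>
    refine ⟨0, fun a b => ?_⟩
    simp
  | add x y hx hy =>
    obtain ⟨C, hC⟩ := hx
    obtain ⟨D, hD⟩ := hy
    refine ⟨C + D, fun a b => ?_⟩
    rw [mul_add, add_mul, map_add]
    refine (abs_add_le _ _).trans ?_
    push_cast
    rw [add_mul]
    exact add_le_add (hC a b) (hD a b)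
  | single g n =>
    refine ⟨n.natAbs, fun a b => ?_⟩
    have h1 : a * single g n * bar b = n • (a * single g 1 * bar b) := by
      have : (single g n : MonoidAlgebra ℤ G) = n • single g 1 := by
        rw [smul_single']; simp
      rw [this, mul_smul_comm, smul_mul_assoc]
    have h2 := two_abs_le (a * single g 1) b
    have h3 : tr (a * single g 1 * bar (a * single g 1)) = tr (a * bar a) := by
      rw [bar_mul, bar_single, mul_assoc, ← mul_assoc (single g 1), single_mul_single,
        mul_inv_cancel, mul_one, ← one_def, one_mul]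
    rw [h3] at h2
    rw [h1, map_smul, smul_eq_mul, abs_mul, Int.natCast_natAbs]
    have h4 := abs_nonneg (tr (a * single g 1 * bar b))
    exact mul_le_mul_of_nonneg_left (by linarith) (abs_nonneg n)

section form

variable {ι κ : Type*} [Fintype ι] [Fintype κ]

/-- the adjoint matrix -/
noncomputable def adj (M : Matrix ι κ (MonoidAlgebra ℤ G)) : Matrix κ ι (MonoidAlgebra ℤ G) :=
  fun i j => bar (M j i)

omit [Fintype ι] [Fintype κ] in
theorem adj_adj (M : Matrix ι κ (MonoidAlgebra ℤ G)) : adj (adj M) = M := by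
  ext1 i j; exact bar_bar _

omit [Fintype ι] in
theorem adj_mul {μ : Type*} (M : Matrix ι κ (MonoidAlgebra ℤ G))
    (N : Matrix κ μ (MonoidAlgebra ℤ G)) : adj (M * N) = adj N * adj M := by
  ext1 i j
  change bar ((M * N) j i) = _
  rw [Matrix.mul_apply, Matrix.mul_apply, bar_sum]
  exact Finset.sum_congr rfl fun k _ => bar_mul _ _

omit [Fintype ι] in
theorem adj_one [DecidableEq ι] : adj (1 : Matrix ι ι (MonoidAlgebra ℤ G)) = 1 := by
  ext1 i j
  change bar ((1 : Matrix ι ι (MonoidAlgebra ℤ G)) j i) = _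
  rw [Matrix.one_apply, Matrix.one_apply]
  by_cases h : i = j
  · rw [if_pos h, if_pos h.symm, bar_one]
  · rw [if_neg h, if_neg (fun h' => h h'.symm), bar_zero]

omit [Fintype ι] [Fintype κ] in
theorem adj_add (M N : Matrix ι κ (MonoidAlgebra ℤ G)) : adj (M + N) = adj M + adj N := by
  ext1 i j; exact bar_add _ _

omit [Fintype ι] [Fintype κ] in
theorem adj_sub (M N : Matrix ι κ (MonoidAlgebra ℤ G)) : adj (M - N) = adj M - adj N := by
  ext1 i j; exact bar_sub _ _

/-- The hermitian form of the matrix `H` on row vectors: `b(x, y) = x H y*`. -/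
noncomputable def hf (H : Matrix ι ι (MonoidAlgebra ℤ G)) (x y : ι → MonoidAlgebra ℤ G) :
    MonoidAlgebra ℤ G :=
  ∑ j, (∑ i, x i * H i j) * bar (y j)

variable (H : Matrix ι ι (MonoidAlgebra ℤ G))

theorem hf_add_left (x x' y : ι → MonoidAlgebra ℤ G) :
    hf H (x + x') y = hf H x y + hf H x' y := by
  simp only [hf, Pi.add_apply, add_mul, Finset.sum_add_distrib]

theorem hf_add_right (x y y' : ι → MonoidAlgebra ℤ G) :
    hf H x (y + y') = hf H x y + hf H x y' := by
  simp only [hf, Pi.add_apply, bar_add, mul_add, Finset.sum_add_distrib]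

theorem hf_smul_left (a : MonoidAlgebra ℤ G) (x y : ι → MonoidAlgebra ℤ G) :
    hf H (a • x) y = a * hf H x y := by
  simp only [hf, Pi.smul_apply, smul_eq_mul, Finset.mul_sum, Finset.sum_mul, mul_assoc]

theorem hf_smul_right (a : MonoidAlgebra ℤ G) (x y : ι → MonoidAlgebra ℤ G) :
    hf H x (a • y) = hf H x y * bar a := by
  simp only [hf, Pi.smul_apply, smul_eq_mul, bar_mul, Finset.sum_mul, mul_assoc]

theorem hf_symm (hH : adj H = H) (x y : ι → MonoidAlgebra ℤ G) :
    hf H y x = bar (hf H x y) := by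
  simp only [hf, bar_sum, bar_mul, bar_bar, Finset.sum_mul]
  rw [Finset.sum_comm]
  refine Finset.sum_congr rfl fun i _ => Finset.sum_congr rfl fun j _ => ?_
  have h1 : bar (H j i) = H i j := congrFun (congrFun hH i) j
  rw [h1, mul_assoc]

omit [Fintype ι] in
theorem int_smul (n : ℤ) (x : ι → MonoidAlgebra ℤ G) :
    n • x = (single 1 n : MonoidAlgebra ℤ G) • x := by
  funext i
  simp only [Pi.smul_apply, smul_eq_mul]
  ext g
  rw [coeff_single_mul_apply, inv_one, one_mul, coeff_smul_apply, smul_eq_mul]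

/-- the trace form -/
noncomputable def tf : (ι → MonoidAlgebra ℤ G) →ₗ[ℤ] (ι → MonoidAlgebra ℤ G) →ₗ[ℤ] ℤ :=
  LinearMap.mk₂ ℤ (fun x y => tr (hf H x y))
    (fun x x' y => by rw [hf_add_left, map_add])
    (fun n x y => by
      rw [int_smul, hf_smul_left, tr_single_mul, inv_one]; rfl)
    (fun x y y' => by rw [hf_add_right, map_add])
    (fun n x y => by
      rw [int_smul, hf_smul_right, bar_single, inv_one, tr_mul_comm, tr_single_mul, inv_one]; rfl)

theorem tf_apply (x y : ι → MonoidAlgebra ℤ G) : tf H x y = tr (hf H x y) := rfl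

theorem tf_symm (hH : adj H = H) (x y : ι → MonoidAlgebra ℤ G) : tf H x y = tf H y x := by
  rw [tf_apply, tf_apply, hf_symm H hH x y, tr_bar]

theorem coeff_hf (x y : ι → MonoidAlgebra ℤ G) (g : G) :
    (hf H x y).coeff g = tf H ((single g⁻¹ 1 : MonoidAlgebra ℤ G) • x) y := by
  rw [tf_apply, hf_smul_left, tr_single_mul, inv_inv, one_mul]

theorem tf_smul (g : G) (x y : ι → MonoidAlgebra ℤ G) :
    tf H ((single g 1 : MonoidAlgebra ℤ G) • x) ((single g 1 : MonoidAlgebra ℤ G) • y)
      = tf H x y := by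
  rw [tf_apply, hf_smul_left, hf_smul_right, bar_single, tr_mul_comm, mul_assoc,
    single_mul_single, inv_mul_cancel, mul_one, ← one_def, mul_one, ← tf_apply]

end form

end Pool.Agent.U450.RL
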