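import Pool.Agent.U450.RL.Lf
import Pool.Agent.U450.RL.Ring

set_option autoImplicit false
set_option linter.unusedSectionVars false

/-! Nonsingular positive semidefinite forms over the integral group ring are coercive, and the set of
indecomposable vectors of norm two is locally finite. -/

namespace Pool.Agent.U450.RL

open MonoidAlgebra

variable {G : Type*} [Group G] {ι : Type*} [Fintype ι] [DecidableEq ι]
  (H : Matrix ι ι (MonoidAlgebra ℤ G))

/-- sum of the squares of the coefficients -/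
noncomputable def nn (x : ι → MonoidAlgebra ℤ G) : ℤ := ∑ i, tr (x i * bar (x i))

theorem nn_nonneg (x : ι → MonoidAlgebra ℤ G) : 0 ≤ nn x :=
  Finset.sum_nonneg fun _ _ => nsq_nonneg _

theorem coercive (hH : adj H = H) (K : Matrix ι ι (MonoidAlgebra ℤ G)) (hKH : K * H = 1)
    (hpos : ∀ x, 0 ≤ tf H x x) :
    ∃ C : ℕ, ∀ x : ι → MonoidAlgebra ℤ G, nn x ≤ C * tf H x x := by
  choose c hc using fun i j => schur (K i j)
  refine ⟨2 * ∑ i, ∑ j, c i j, fun x => ?_⟩
  set C : ℕ := 2 * ∑ i, ∑ j, c i j with hC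
  let z : ι → MonoidAlgebra ℤ G := fun j => ∑ i, x i * K i j
  have h1 : ∀ y, hf H z y = ∑ j, x j * bar (y j) := by
    intro y
    unfold hf
    refine Finset.sum_congr rfl fun j _ => ?_
    congr 1
    have h2 : ∀ i, z i * H i j = ∑ k, x k * (K k i * H i j) := by
      intro i
      change (∑ k, x k * K k i) * H i j = _
      rw [Finset.sum_mul]
      exact Finset.sum_congr rfl fun k _ => mul_assoc _ _ _
    simp only [h2]
    rw [Finset.sum_comm]
    have h3 : ∀ k, ∑ i, x k * (K k i * H i j) = x k * (1 : Matrix ι ι (MonoidAlgebra ℤ G)) k j := by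
      intro k
      rw [← hKH, Matrix.mul_apply, Finset.mul_sum]
    simp only [h3, Matrix.one_apply]
    simp
  have h2 : tf H z x = nn x := by
    rw [tf_apply, h1, map_sum]; rfl
  have h3 : tf H z z ≤ C * nn x := by
    rw [tf_apply, h1, map_sum]
    have h4 : ∀ j, tr (x j * bar (z j)) ≤ ∑ i, (c i j : ℤ) * (2 * nn x) := by
      intro j
      rw [tr_mul_bar_comm]
      change tr ((∑ i, x i * K i j) * bar (x j)) ≤ _
      rw [Finset.sum_mul, map_sum]
      refine Finset.sum_le_sum fun i _ => ?_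
      refine (le_abs_self _).trans ((hc i j (x i) (x j)).trans ?_)
      refine mul_le_mul_of_nonneg_left ?_ (by positivity)
      have h5 : ∀ i, tr (x i * bar (x i)) ≤ nn x := fun i =>
        Finset.single_le_sum (f := fun i => tr (x i * bar (x i)))
          (fun i _ => nsq_nonneg _) (Finset.mem_univ i)
      linarith [h5 i, h5 j]
    refine (Finset.sum_le_sum fun j _ => h4 j).trans (le_of_eq ?_)
    rw [Finset.sum_comm, hC]
    push_cast
    simp only [Finset.mul_sum, Finset.sum_mul]
    refine Finset.sum_congr rfl fun i _ => Finset.sum_congr rfl fun j _ => ?_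
    ring
  have hs := LinearMap.BilinForm.apply_mul_apply_le_of_forall_zero_le (tf H) hpos z x
  rw [tf_symm H hH x z, h2] at hs
  have h0 := nn_nonneg x
  rcases h0.eq_or_lt with h0 | h0
  · rw [← h0]
    exact mul_nonneg (by positivity) (hpos x)
  · have h6 : nn x * nn x ≤ nn x * (C * tf H x x) := by
      calc nn x * nn x ≤ tf H z z * tf H x x := hs
        _ ≤ (C * nn x) * tf H x x := mul_le_mul_of_nonneg_right h3 (hpos x)
        _ = nn x * (C * tf H x x) := by ring
    exact le_of_mul_le_mul_left h6 h0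

theorem nn_pos {x : ι → MonoidAlgebra ℤ G} (hx : x ≠ 0) : 0 < nn x := by
  obtain ⟨i, hi⟩ := Function.ne_iff.1 hx
  have h1 : 0 < tr (x i * bar (x i)) := by
    rw [nsq_eq]
    have h2 : (x i).coeff ≠ 0 := by
      intro h; exact hi (coeff_eq_zero.1 h)
    obtain ⟨g, hg⟩ := Finsupp.ne_iff.1 h2
    refine Finset.sum_pos' (fun g _ => sq_nonneg _) ⟨g, Finsupp.mem_support_iff.2 hg, ?_⟩
    have hg' : (x i).coeff g ≠ 0 := hg
    positivity
  refine lt_of_lt_of_le h1 ?_
  exact Finset.single_le_sum (f := fun i => tr (x i * bar (x i)))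
    (fun i _ => nsq_nonneg _) (Finset.mem_univ i)

theorem pd (hH : adj H = H) (K : Matrix ι ι (MonoidAlgebra ℤ G)) (hKH : K * H = 1)
    (hpos : ∀ x, 0 ≤ tf H x x) : PD (tf H) := by
  refine ⟨tf_symm H hH, fun x hx => ?_⟩
  obtain ⟨C, hC⟩ := coercive H hH K hKH hpos
  have h1 := nn_pos hx
  have h2 := hC x
  rcases (hpos x).eq_or_lt with h3 | h3
  · rw [← h3] at h2; omega
  · exact h3

/-- coordinates -/
noncomputable def co : (ι → MonoidAlgebra ℤ G) ≃ₗ[ℤ] ((Σ _ : ι, G) →₀ ℤ) :=
  (LinearEquiv.piCongrRight fun _ : ι =>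
    (coeffAddEquiv (R := ℤ) (M := G)).toIntLinearEquiv).trans
    (Finsupp.sigmaFinsuppLEquivPiFinsupp ℤ).symm

theorem co_apply (x : ι → MonoidAlgebra ℤ G) (t : Σ _ : ι, G) :
    co x t = (x t.1).coeff t.2 := by
  rfl

theorem co_symm_single (i : ι) (g : G) :
    co.symm (Finsupp.single (⟨i, g⟩ : Σ _ : ι, G) (1 : ℤ)) = Pi.single i (single g 1) := by
  classical
  rw [LinearEquiv.symm_apply_eq]
  ext ⟨j, h⟩
  rw [co_apply, Finsupp.single_apply]
  change _ = ((Pi.single i (single g 1) : ι → MonoidAlgebra ℤ G) j).coeff h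
  by_cases hij : i = j
  · subst hij
    rw [Pi.single_eq_same, coeff_single, Finsupp.single_apply]
    by_cases hg : g = h
    · subst hg; simp
    · rw [if_neg hg, if_neg]
      intro h'
      simp only [Sigma.mk.injEq, heq_eq_eq, true_and] at h'
      exact hg h'
  · rw [Pi.single_eq_of_ne (Ne.symm hij), if_neg]
    · simp
    · intro h'
      simp only [Sigma.mk.injEq] at h'
      exact hij h'.1

theorem tf_single (i j : ι) (g h : G) :
    tf H (Pi.single i (single g 1)) (Pi.single j (single h 1)) = (H i j).coeff (g⁻¹ * h) := by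
  have h1 : hf H (Pi.single i (single g 1)) (Pi.single j (single h 1))
      = single g 1 * H i j * single h⁻¹ 1 := by
    unfold hf
    rw [Finset.sum_eq_single j]
    · rw [Pi.single_eq_same, bar_single, Finset.sum_eq_single i]
      · rw [Pi.single_eq_same]
      · intro k _ hk
        rw [Pi.single_eq_of_ne hk, zero_mul]
      · intro h; exact absurd (Finset.mem_univ _) h
    · intro k _ hk
      rw [Pi.single_eq_of_ne hk, bar_zero, mul_zero]
    · intro h; exact absurd (Finset.mem_univ _) h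
  rw [tf_apply, h1, tr_apply, coeff_mul_single_apply, inv_inv, one_mul, mul_one,
    coeff_single_mul_apply, one_mul]

theorem local_finite (hH : adj H = H) (K : Matrix ι ι (MonoidAlgebra ℤ G)) (hKH : K * H = 1)
    (hpos : ∀ x, 0 ≤ tf H x x) (x : ι → MonoidAlgebra ℤ G) :
    {y | y ∈ R2 (tf H) ∧ tf H x y ≠ 0}.Finite := by
  classical
  obtain ⟨C, hC⟩ := coercive H hH K hKH hpos
  have hpd := pd H hH K hKH hpos
  let B' : ((Σ _ : ι, G) →₀ ℤ) →ₗ[ℤ] ((Σ _ : ι, G) →₀ ℤ) →ₗ[ℤ] ℤ :=
    (tf H).compl₁₂ co.symm.toLinearMap co.symm.toLinearMap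
  have hB : ∀ u v, B' u v = tf H (co.symm u) (co.symm v) := fun u v => rfl
  have hpd' : PD B' := by
    refine ⟨fun u v => ?_, fun u hu => ?_⟩
    · rw [hB, hB]; exact hpd.symm _ _
    · rw [hB]; exact hpd.pos _ (fun h => hu (by
        have := congrArg co h
        rwa [LinearEquiv.apply_symm_apply, map_zero] at this))
  let N : (Σ _ : ι, G) → Finset (Σ _ : ι, G) := fun t =>
    Finset.univ.sigma fun j => (H t.1 j).coeff.support.image (t.2 * ·)
  have hN : ∀ i j, B' (Finsupp.single i 1) (Finsupp.single j 1) ≠ 0 → j ∈ N i := by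
    rintro ⟨i, g⟩ ⟨j, h⟩ hne
    rw [hB, co_symm_single, co_symm_single, tf_single] at hne
    refine Finset.mem_sigma.2 ⟨Finset.mem_univ _, Finset.mem_image.2 ⟨g⁻¹ * h, ?_, ?_⟩⟩
    · exact Finsupp.mem_support_iff.2 hne
    · simp
  have hC' : ∀ (u : (Σ _ : ι, G) →₀ ℤ) (T : Finset (Σ _ : ι, G)),
      ∑ t ∈ T, (u t) ^ 2 ≤ C * B' u u := by
    intro u T
    rw [hB]
    refine le_trans ?_ (hC (co.symm u))
    set y := co.symm u with hy
    have hu : ∀ t, u t = (y t.1).coeff t.2 := by
      intro t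
      rw [← co_apply, hy, LinearEquiv.apply_symm_apply]
    let U : Finset (Σ _ : ι, G) := Finset.univ.sigma fun i => (y i).coeff.support
    have h1 : nn y = ∑ t ∈ U, (u t) ^ 2 := by
      unfold nn
      rw [Finset.sum_sigma]
      refine Finset.sum_congr rfl fun i _ => ?_
      rw [nsq_eq]
      refine Finset.sum_congr rfl fun g _ => ?_
      rw [hu]
    rw [h1]
    calc ∑ t ∈ T, (u t) ^ 2 ≤ ∑ t ∈ T ∪ U, (u t) ^ 2 :=
          Finset.sum_le_sum_of_subset_of_nonneg Finset.subset_union_left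
            fun t _ _ => sq_nonneg _
      _ = ∑ t ∈ U, (u t) ^ 2 := by
          refine (Finset.sum_subset Finset.subset_union_right fun t _ ht => ?_).symm
          have : u t = 0 := by
            rw [hu]
            by_contra hne
            exact ht (Finset.mem_sigma.2 ⟨Finset.mem_univ _, Finsupp.mem_support_iff.2 hne⟩)
          rw [this]; rfl
  have hfin := lf hpd' N hN C hC' (co x)
  refine (hfin.preimage (f := co) (co.injective.injOn)).subset ?_
  rintro y ⟨⟨h1, h2⟩, h3⟩
  refine ⟨⟨?_, fun v hv => ?_⟩, ?_⟩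
  · rw [hB, LinearEquiv.symm_apply_apply]; exact h1
  · rw [hB, LinearEquiv.symm_apply_apply]; exact h2 _ hv
  · rw [hB, LinearEquiv.symm_apply_apply, LinearEquiv.symm_apply_apply]; exact h3

end Pool.Agent.U450.RL
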