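import Pool.Agent.U450.RL.Bas

set_option autoImplicit false
set_option linter.unusedSectionVars false

/-! Positive definite hermitian forms over the integral group ring of a torsion-free group which are
generated by vectors of trace norm at most two are extended from the integers. -/

namespace Pool.Agent.U450.RL

open MonoidAlgebra

variable {G : Type*} [Group G]

/-- the augmentation -/
noncomputable def aug : MonoidAlgebra ℤ G →+* ℤ :=
  (MonoidAlgebra.lift ℤ ℤ G (1 : G →* ℤ)).toRingHom

theorem aug_single (g : G) (n : ℤ) : aug (single g n : MonoidAlgebra ℤ G) = n := by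
  change MonoidAlgebra.lift ℤ ℤ G (1 : G →* ℤ) (single g n) = n
  rw [MonoidAlgebra.lift_single]
  simp

theorem aug_bar (a : MonoidAlgebra ℤ G) : aug (bar a) = aug a := by
  induction a using MonoidAlgebra.induction_linear with
  | zero => rw [bar_zero]
  | add x y hx hy => rw [bar_add, map_add, hx, hy, map_add]
  | single g n => rw [bar_single, aug_single, aug_single]

/-- the constant matrix -/
noncomputable def cst {ι κ : Type*} (M : Matrix ι κ ℤ) : Matrix ι κ (MonoidAlgebra ℤ G) :=
  M.map (Int.castRingHom (MonoidAlgebra ℤ G))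

/-- the augmentation of a matrix -/
noncomputable def agm {ι κ : Type*} (M : Matrix ι κ (MonoidAlgebra ℤ G)) : Matrix ι κ ℤ :=
  M.map aug

section mats

variable {ι κ μ : Type*} [Fintype ι] [Fintype κ] [Fintype μ]

theorem cst_mul (M : Matrix ι κ ℤ) (N : Matrix κ μ ℤ) :
    (cst (M * N) : Matrix ι μ (MonoidAlgebra ℤ G)) = cst M * cst N :=
  Matrix.map_mul

theorem agm_mul (M : Matrix ι κ (MonoidAlgebra ℤ G)) (N : Matrix κ μ (MonoidAlgebra ℤ G)) :
    agm (M * N) = agm M * agm N :=
  Matrix.map_mul

theorem cst_mul_sq (M N : Matrix ι ι ℤ) :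
    (cst (M * N) : Matrix ι ι (MonoidAlgebra ℤ G)) = cst M * cst N :=
  cst_mul M N

theorem cst_one [DecidableEq ι] : (cst (1 : Matrix ι ι ℤ) : Matrix ι ι (MonoidAlgebra ℤ G)) = 1 :=
  Matrix.map_one _ (map_zero _) (map_one _)

theorem agm_one [DecidableEq ι] : agm (1 : Matrix ι ι (MonoidAlgebra ℤ G)) = 1 :=
  Matrix.map_one _ (map_zero _) (map_one _)

theorem agm_cst (M : Matrix ι κ ℤ) : agm (cst M : Matrix ι κ (MonoidAlgebra ℤ G)) = M := by
  ext1 i j
  change aug (Int.castRingHom (MonoidAlgebra ℤ G) (M i j)) = M i j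
  simp

theorem adj_cst (M : Matrix ι κ ℤ) :
    adj (cst M : Matrix ι κ (MonoidAlgebra ℤ G)) = cst M.transpose := by
  ext1 i j
  change bar (Int.castRingHom (MonoidAlgebra ℤ G) (M j i)) = Int.castRingHom _ (M j i)
  rw [eq_intCast, intCast_def, bar_single, inv_one]

theorem agm_adj (M : Matrix ι κ (MonoidAlgebra ℤ G)) : agm (adj M) = (agm M).transpose := by
  ext1 i j
  exact aug_bar _

theorem cst_add (M N : Matrix ι κ ℤ) :
    (cst (M + N) : Matrix ι κ (MonoidAlgebra ℤ G)) = cst M + cst N :=
  Matrix.map_add _ (map_add _) _ _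

theorem agm_add (M N : Matrix ι κ (MonoidAlgebra ℤ G)) : agm (M + N) = agm M + agm N :=
  Matrix.map_add _ (map_add _) _ _

end mats

variable {ι : Type*} [Fintype ι] [DecidableEq ι] {H : Matrix ι ι (MonoidAlgebra ℤ G)}

/-- linear independence over the group ring from an integral Gram matrix -/
theorem indep (hpd : PD (tf H)) {J : Type*} (f : J → ι → MonoidAlgebra ℤ G) (m : J → J → ℤ)
    (hm : ∀ i j, hf H (f i) (f j) = single 1 (m i j)) (hf' : LinearIndependent ℤ f) :
    LinearIndependent (MonoidAlgebra ℤ G) f := by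
  classical
  rw [linearIndependent_iff']
  intro s a ha j hj
  ext g
  rw [linearIndependent_iff'] at hf'
  refine hf' s (fun j => (a j).coeff g) ?_ j hj
  set w : ι → MonoidAlgebra ℤ G := ∑ j ∈ s, (a j).coeff g • f j with hw
  have h1 : ∀ i, tf H w (f i) = 0 := by
    intro i
    have h2 : hf H (∑ j ∈ s, a j • f j) (f i) = ∑ j ∈ s, a j * hf H (f j) (f i) := by
      clear ha hw hj
      induction s using Finset.induction_on with
      | empty =>
        have h4 := hf_smul_left H (0 : MonoidAlgebra ℤ G) (0 : ι → MonoidAlgebra ℤ G) (f i)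
        rw [zero_smul, zero_mul] at h4
        simpa using h4
      | insert j s hjs ih =>
        rw [Finset.sum_insert hjs, Finset.sum_insert hjs, hf_add_left, hf_smul_left, ih]
    rw [ha] at h2
    have h4 := hf_smul_left H (0 : MonoidAlgebra ℤ G) (0 : ι → MonoidAlgebra ℤ G) (f i)
    rw [zero_smul, zero_mul] at h4
    rw [h4] at h2
    have h5 := congrArg (fun z : MonoidAlgebra ℤ G => z.coeff g) h2
    simp only [coeff_sum, Finsupp.coe_finsetSum, Finset.sum_apply, coeff_zero,
      Finsupp.coe_zero, Pi.zero_apply] at h5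
    rw [hw, map_sum, LinearMap.sum_apply]
    rw [h5]
    refine Finset.sum_congr rfl fun j _ => ?_
    rw [map_smul, LinearMap.smul_apply, hm, coeff_mul_single_apply, inv_one, mul_one,
      tf_apply, hm, tr_apply, coeff_single, Finsupp.single_eq_same, smul_eq_mul]
  refine hpd.eq_zero ?_
  have h2 : tf H w w = tf H w (∑ j ∈ s, (a j).coeff g • f j) := by rw [← hw]
  rw [h2, map_sum]
  refine Finset.sum_eq_zero fun j _ => ?_
  rw [map_smul, h1, smul_zero]

/-- the span over the group ring of an invariant set -/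
theorem span_int (S : Set (ι → MonoidAlgebra ℤ G)) (hS : ∀ g, ∀ x ∈ S, gs g x ∈ S)
    (h : Submodule.span (MonoidAlgebra ℤ G) S = ⊤) : Submodule.span ℤ S = ⊤ := by
  have h1 : ∀ g, ∀ x ∈ Submodule.span ℤ S, gs g x ∈ Submodule.span ℤ S := by
    intro g x hx
    induction hx using Submodule.span_induction with
    | mem x hx => exact Submodule.subset_span (hS g x hx)
    | zero => rw [gs, smul_zero]; exact Submodule.zero_mem _
    | add x y _ _ hx hy => rw [gs, smul_add]; exact Submodule.add_mem _ hx hy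
    | smul n x _ hx =>
      have : gs g (n • x) = n • gs g x := by unfold gs; exact smul_comm _ _ _
      rw [this]; exact Submodule.smul_mem _ _ hx
  have h2 : ∀ a : MonoidAlgebra ℤ G, ∀ x ∈ Submodule.span ℤ S, a • x ∈ Submodule.span ℤ S := by
    intro a x hx
    induction a using MonoidAlgebra.induction_linear with
    | zero => rw [zero_smul]; exact Submodule.zero_mem _
    | add a b ha hb => rw [add_smul]; exact Submodule.add_mem _ ha hb
    | single g n =>
      have : (single g n : MonoidAlgebra ℤ G) • x = n • gs g x := by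
        rw [int_smul, gs, smul_smul, single_mul_single, one_mul, mul_one]
      rw [this]
      exact Submodule.smul_mem _ _ (h1 g x hx)
  rw [eq_top_iff]
  intro x _
  have hx : x ∈ Submodule.span (MonoidAlgebra ℤ G) S := by rw [h]; exact Submodule.mem_top
  induction hx using Submodule.span_induction with
  | mem x hx => exact Submodule.subset_span hx
  | zero => exact Submodule.zero_mem _
  | add x y _ _ hx hy => exact Submodule.add_mem _ (hx trivial) (hy trivial)
  | smul a x _ hx => exact h2 a x (hx trivial)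

/-- the entries of `P H P*` -/
theorem mul_adj_apply {κ μ : Type*} [Fintype κ] [Fintype μ]
    (P : Matrix κ ι (MonoidAlgebra ℤ G)) (P' : Matrix μ ι (MonoidAlgebra ℤ G)) (i : κ) (j : μ) :
    (P * H * adj P') i j = hf H (P i) (P' j) := by
  rw [Matrix.mul_apply]
  refine Finset.sum_congr rfl fun k _ => ?_
  rw [Matrix.mul_apply]
  rfl

theorem main_mat (hG : ∀ g : G, ∀ k : ℕ, 0 < k → g ^ k = 1 → g = 1) (hH : adj H = H)
    (K : Matrix ι ι (MonoidAlgebra ℤ G)) (hKH : K * H = 1)
    (hpos : ∀ x, 0 ≤ (hf H x x).coeff 1)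
    (hgen : Submodule.span (MonoidAlgebra ℤ G) {x | (hf H x x).coeff 1 ≤ 2} = ⊤) :
    ∃ (U V : Matrix ι ι (MonoidAlgebra ℤ G)) (M : Matrix ι ι ℤ),
      U * V = 1 ∧ V * U = 1 ∧ U * H * adj U = cst M := by
  classical
  have hpos' : ∀ x, 0 ≤ tf H x x := hpos
  have hpd := pd H hH K hKH hpos'
  have hcl : ∀ x ∈ R (tf H), {y | y ∈ R (tf H) ∧ rel (tf H) x y}.Finite := fun x hx =>
    hpd.class_finite (fun x _ => local_finite H hH K hKH hpos' x) hx
  have hgen' : Submodule.span ℤ {x | tf H x x ≤ 2} = ⊤ := by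
    refine span_int _ (fun g x hx => ?_) hgen
    change tf H (gs g x) (gs g x) ≤ 2
    rw [tf_gs]
    exact hx
  obtain ⟨J, f, m, h1, h2, h3⟩ := exists_family hG hpd hcl (hpd.span_R hgen')
  have h4 := indep hpd f m h1 h2
  let bs : Module.Basis J (MonoidAlgebra ℤ G) (ι → MonoidAlgebra ℤ G) :=
    Module.Basis.mk h4 h3.ge
  have hbs : ∀ j, bs j = f j := fun j => Module.Basis.mk_apply h4 h3.ge j
  have : Finite J := Module.Finite.finite_basis bs
  have : Fintype J := Fintype.ofFinite J
  let P : Matrix J ι (MonoidAlgebra ℤ G) := fun j => f j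
  let Q : Matrix ι J (MonoidAlgebra ℤ G) := fun i j => bs.repr (Pi.single i 1) j
  have hQP : Q * P = 1 := by
    ext1 i k
    have h5 : (Q * P) i k = (∑ j, bs.repr (Pi.single i 1) j • bs j) k := by
      rw [Matrix.mul_apply, Finset.sum_apply]
      refine Finset.sum_congr rfl fun j _ => ?_
      rw [hbs]; rfl
    rw [h5, bs.sum_repr, Matrix.one_apply, Pi.single_apply]
    by_cases h : i = k
    · subst h; simp
    · rw [if_neg h, if_neg (fun h' => h h'.symm)]
  have hPQ : P * Q = 1 := by
    ext1 j j'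
    have h5 : (∑ i, f j i • (Pi.single i 1 : ι → MonoidAlgebra ℤ G)) = f j := by
      funext k
      rw [Finset.sum_apply, Finset.sum_eq_single k]
      · simp
      · intro i _ hi
        rw [Pi.smul_apply, Pi.single_eq_of_ne (Ne.symm hi), smul_zero]
      · intro h; exact absurd (Finset.mem_univ _) h
    have h6 : (P * Q) j j' = bs.repr (∑ i, f j i • (Pi.single i 1 : ι → MonoidAlgebra ℤ G)) j' := by
      rw [Matrix.mul_apply, map_sum, Finsupp.coe_finsetSum, Finset.sum_apply]
      refine Finset.sum_congr rfl fun i _ => ?_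
      rw [map_smul]; rfl
    rw [h6, h5, ← hbs, bs.repr_self, Finsupp.single_apply, Matrix.one_apply]
  have hcard : Fintype.card ι = Fintype.card J := by
    have e1 := congrArg agm hQP
    have e2 := congrArg agm hPQ
    rw [agm_mul, agm_one] at e1 e2
    have e3 : (Fintype.card ι : ℤ) = Fintype.card J := by
      rw [← Matrix.trace_one (n := ι) (R := ℤ), ← Matrix.trace_one (n := J) (R := ℤ), ← e1, ← e2,
        Matrix.trace_mul_comm]
    exact_mod_cast e3
  let e : ι ≃ J := Fintype.equivOfCardEq hcard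
  refine ⟨P.submatrix e id, Q.submatrix id e, fun i j => m (e i) (e j), ?_, ?_, ?_⟩
  · rw [Matrix.submatrix_mul P Q e id e Function.bijective_id |>.symm, hPQ,
      Matrix.submatrix_one_equiv]
  · rw [Matrix.submatrix_mul Q P id e id e.bijective |>.symm, hQP, Matrix.submatrix_id_id]
  · ext1 i j
    rw [mul_adj_apply]
    change hf H (f (e i)) (f (e j)) = _
    rw [h1]
    change _ = Int.castRingHom (MonoidAlgebra ℤ G) (m (e i) (e j))
    rw [eq_intCast, intCast_def]
    rfl

/-- normalisation by the augmentation -/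
theorem main_aug (hG : ∀ g : G, ∀ k : ℕ, 0 < k → g ^ k = 1 → g = 1) (hH : adj H = H)
    (hu : IsUnit H) (hpos : ∀ x, 0 ≤ (hf H x x).coeff 1)
    (hgen : Submodule.span (MonoidAlgebra ℤ G) {x | (hf H x x).coeff 1 ≤ 2} = ⊤) :
    ∃ U : (Matrix ι ι (MonoidAlgebra ℤ G))ˣ, agm U.val = 1 ∧ U.val * H * adj U.val = cst (agm H) := by
  obtain ⟨u, rfl⟩ := hu
  obtain ⟨U, V, M, h1, h2, h3⟩ := main_mat hG hH u⁻¹.val u.inv_mul hpos hgen
  have h4 : agm U * agm V = 1 := by rw [← agm_mul, h1, agm_one]
  have h5 : agm V * agm U = 1 := by rw [← agm_mul, h2, agm_one]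
  have h6 : M = agm U * agm u.val * (agm U).transpose := by
    have := congrArg agm h3
    rw [agm_cst, agm_mul, agm_mul, agm_adj] at this
    exact this.symm
  refine ⟨⟨cst (agm V) * U, V * cst (agm U), ?_, ?_⟩, ?_, ?_⟩
  · calc cst (agm V) * U * (V * cst (agm U)) = cst (agm V) * (U * V) * cst (agm U) := by
          simp only [Matrix.mul_assoc]
      _ = 1 := by rw [h1, Matrix.mul_one, ← cst_mul_sq, h5, cst_one]
  · calc V * cst (agm U) * (cst (agm V) * U) = V * (cst (agm U) * cst (agm V)) * U := by
          simp only [Matrix.mul_assoc]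
      _ = 1 := by rw [← cst_mul_sq, h4, cst_one, Matrix.mul_one, h2]
  · change agm (cst (agm V) * U) = 1
    rw [agm_mul, agm_cst, h5]
  · change cst (agm V) * U * u.val * adj (cst (agm V) * U) = _
    calc cst (agm V) * U * u.val * adj (cst (agm V) * U)
        = cst (agm V) * (U * u.val * adj U) * adj (cst (agm V)) := by
          rw [adj_mul]; simp only [Matrix.mul_assoc]
      _ = cst (agm V * M * (agm V).transpose) := by
          rw [h3, adj_cst, cst_mul_sq, cst_mul_sq]
      _ = cst (agm u.val) := by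
          congr 1
          rw [h6]
          calc agm V * (agm U * agm u.val * (agm U).transpose) * (agm V).transpose
              = (agm V * agm U) * agm u.val * ((agm U).transpose * (agm V).transpose) := by
                simp only [Matrix.mul_assoc]
            _ = agm u.val := by
                rw [← Matrix.transpose_mul, h5, Matrix.one_mul, Matrix.transpose_one,
                  Matrix.mul_one]

/-- Matrices with `D + D* = 0` are of the form `X - X*` if there are no elements of order two. -/
theorem skew (h2 : ∀ g : G, g⁻¹ = g → g = 1) (D : Matrix ι ι (MonoidAlgebra ℤ G))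
    (hD : D + adj D = 0) : ∃ X : Matrix ι ι (MonoidAlgebra ℤ G), D = X - adj X := by
  classical
  refine ⟨fun i j => .ofCoeff ((D i j).coeff.filter
    fun g => WellOrderingRel (i, j, g) (j, i, g⁻¹)), ?_⟩
  ext i j g
  rw [Matrix.sub_apply, coeff_sub, Finsupp.sub_apply]
  change _ = ((D i j).coeff.filter fun g => WellOrderingRel (i, j, g) (j, i, g⁻¹)) g -
    ((D j i).coeff.filter fun g => WellOrderingRel (j, i, g) (i, j, g⁻¹)) g⁻¹
  have h3 : (D i j).coeff g + (D j i).coeff g⁻¹ = 0 := by
    have := congrArg (fun M : Matrix ι ι (MonoidAlgebra ℤ G) => (M i j).coeff g) hD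
    exact this
  rw [Finsupp.filter_apply, Finsupp.filter_apply, inv_inv]
  rcases trichotomous_of WellOrderingRel (i, j, g) (j, i, g⁻¹) with h | h | h
  · rw [if_pos h, if_neg (fun h'' => asymm_of WellOrderingRel h h''), sub_zero]
  · simp only [Prod.mk.injEq] at h
    obtain ⟨rfl, _, h4⟩ := h
    have h5 := h2 g h4.symm
    subst h5
    rw [inv_one] at h3 ⊢
    have h6 : (D i i).coeff 1 = 0 := by omega
    rw [h6]
    simp
  · rw [if_neg (fun h'' => asymm_of WellOrderingRel h h''), if_pos h]
    omega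

theorem quad (hG : ∀ g : G, ∀ k : ℕ, 0 < k → g ^ k = 1 → g = 1)
    (U Q : Matrix ι ι (MonoidAlgebra ℤ G)) (hU : U * H * adj U = cst (agm H))
    (hQ : Q + adj Q = H) :
    ∃ X : Matrix ι ι (MonoidAlgebra ℤ G), U * Q * adj U = cst (agm Q) + (X - adj X) := by
  have h2 : ∀ g : G, g⁻¹ = g → g = 1 := by
    intro g hg
    refine hG g 2 two_pos ?_
    rw [sq]
    nth_rewrite 1 [← hg]
    exact inv_mul_cancel g
  obtain ⟨X, hX⟩ := skew h2 (U * Q * adj U - cst (agm Q)) (by
    rw [adj_sub, adj_mul, adj_mul, adj_adj, adj_cst, ← agm_adj]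
    have h3 : U * Q * adj U + U * (adj Q * adj U) = cst (agm Q + agm (adj Q)) := by
      rw [← agm_add, hQ, ← hU, ← hQ, Matrix.mul_add, Matrix.add_mul, Matrix.mul_assoc U (adj Q)]
    rw [cst_add] at h3
    have h4 : U * Q * adj U - cst (agm Q) + (U * (adj Q * adj U) - cst (agm (adj Q)))
        = (U * Q * adj U + U * (adj Q * adj U)) - (cst (agm Q) + cst (agm (adj Q))) := by
      abel
    rw [h4, h3, sub_self])
  exact ⟨X, by rw [← hX]; abel⟩

end Pool.Agent.U450.RL
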