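import Pool.Agent.U450.RL.GenC

set_option autoImplicit false
set_option linter.unusedSectionVars false

/-! Orbits of classes of short vectors for an arbitrary group, and the blocks over finite
subgroups. -/

namespace Pool.Agent.U450.RL.Gen

open MonoidAlgebra Matrix

universe u v

variable {G : Type u} [Group G] {ι : Type v} [Fintype ι] [DecidableEq ι]
  {H : Matrix ι ι (MonoidAlgebra ℤ G)} {p : Matrix ι ι (MonoidAlgebra ℤ G)}

/-- translation -/
noncomputable def gs (g : G) (x : fx p) : fx p :=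
  (single g 1 : MonoidAlgebra ℤ G) • x

theorem gs_val (g : G) (x : fx p) : (gs g x).1 = (single g 1 : MonoidAlgebra ℤ G) • x.1 := rfl

theorem gs_gs (g h : G) (x : fx p) : gs g (gs h x) = gs (g * h) x := by
  unfold gs
  rw [smul_smul, single_mul_single, one_mul]

theorem gs_one (x : fx p) : gs 1 x = x := by
  unfold gs
  rw [← one_def, one_smul]

theorem gs_inv_gs (g : G) (x : fx p) : gs g⁻¹ (gs g x) = x := by
  rw [gs_gs, inv_mul_cancel, gs_one]

theorem gs_gs_inv (g : G) (x : fx p) : gs g (gs g⁻¹ x) = x := by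
  rw [gs_gs, mul_inv_cancel, gs_one]

theorem tf_gs (g : G) (x y : fx p) : tfx H p (gs g x) (gs g y) = tfx H p x y :=
  tf_smul H g x.1 y.1

theorem tf_gs_left (g : G) (x y : fx p) :
    tfx H p (gs g x) y = tfx H p x (gs g⁻¹ y) := by
  rw [← tf_gs g⁻¹, gs_inv_gs]

theorem gs_R (g : G) {x : fx p} (hx : x ∈ R (tfx H p)) : gs g x ∈ R (tfx H p) := by
  rcases hx with hx | ⟨h1, h2⟩
  · left; rw [tf_gs]; exact hx
  · right
    refine ⟨by rw [tf_gs]; exact h1, fun y hy => ?_⟩
    rw [tf_gs_left]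
    exact h2 _ (by rw [tf_gs]; exact hy)

theorem gs_rel (g : G) {x y : fx p} (h : rel (tfx H p) x y) :
    rel (tfx H p) (gs g x) (gs g y) := by
  obtain ⟨z, hz, h1, h2⟩ := h
  exact ⟨gs g z, gs_R g hz, by rwa [tf_gs], by rwa [tf_gs]⟩

variable (hpd : PD (tfx H p))
  (hcl : ∀ x ∈ R (tfx H p), {y | y ∈ R (tfx H p) ∧ rel (tfx H p) x y}.Finite)

/-- the stabilizer of the class of a vector -/
def stb (hpd : PD (tfx H p)) (x : R (tfx H p)) : Subgroup G where
  carrier := {g | rel (tfx H p) (gs g x.1) x.1}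
  mul_mem' {g h} hg hh := by
    have h1 := gs_rel g hh
    rw [gs_gs] at h1
    exact hpd.rel_trans (gs_R _ x.2) (gs_R _ x.2) x.2 h1 hg
  one_mem' := by
    change rel (tfx H p) (gs 1 x.1) x.1
    rw [gs_one]
    exact hpd.rel_refl x.2
  inv_mem' {g} hg := by
    have h1 := gs_rel g⁻¹ hg
    rw [gs_inv_gs] at h1
    exact hpd.rel_symm h1

theorem mem_stb {x : R (tfx H p)} {g : G} :
    g ∈ stb hpd x ↔ rel (tfx H p) (gs g x.1) x.1 := Iff.rfl

include hcl in
theorem stb_finite (x : R (tfx H p)) : Finite (stb hpd x) := by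
  classical
  have hx0 : x.1.1 ≠ 0 := by
    intro h
    have := hpd.self_ne x.2
    rw [tfx_apply, h] at this
    simp at this
  obtain ⟨i, hi⟩ := Function.ne_iff.1 hx0
  have h2 : (x.1.1 i).coeff ≠ 0 := fun h => hi (coeff_eq_zero.1 h)
  obtain ⟨h, hh⟩ := Finsupp.ne_iff.1 h2
  have hfin : (⋃ y ∈ {y | y ∈ R (tfx H p) ∧ rel (tfx H p) x.1 y},
      ((y.1 i).coeff.support : Set G)).Finite :=
    (hcl x.1 x.2).biUnion fun y _ => Finset.finite_toSet _
  have hsub : ((stb hpd x : Subgroup G) : Set G) ⊆ (· * h) ⁻¹'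
      (⋃ y ∈ {y | y ∈ R (tfx H p) ∧ rel (tfx H p) x.1 y}, ((y.1 i).coeff.support : Set G)) := by
    intro g hg
    refine Set.mem_biUnion (x := gs g x.1) ⟨gs_R g x.2, hpd.rel_symm hg⟩ ?_
    rw [Finset.mem_coe, Finsupp.mem_support_iff]
    change ((single g 1 : MonoidAlgebra ℤ G) * x.1.1 i).coeff (g * h) ≠ 0
    rw [coeff_single_mul_mul, one_mul]
    exact hh
  exact ((hfin.preimage ((mul_left_injective h).injOn)).subset hsub).to_subtype

/-- the orbits of classes -/
def st (hpd : PD (tfx H p)) : Setoid (R (tfx H p)) where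
  r x y := ∃ g, rel (tfx H p) (gs g x.1) y.1
  iseqv := by
    refine ⟨fun x => ⟨1, by rw [gs_one]; exact hpd.rel_refl x.2⟩, ?_, ?_⟩
    · rintro x y ⟨g, hg⟩
      refine ⟨g⁻¹, hpd.rel_symm ?_⟩
      have := gs_rel g⁻¹ hg
      rwa [gs_inv_gs] at this
    · rintro x y z ⟨g, hg⟩ ⟨k, hk⟩
      refine ⟨k * g, ?_⟩
      have h1 := gs_rel k hg
      rw [gs_gs] at h1
      exact hpd.rel_trans (gs_R _ x.2) (gs_R _ y.2) z.2 h1 hk

/-- representatives -/
noncomputable def rp (hpd : PD (tfx H p)) (o : Quotient (st hpd)) : R (tfx H p) :=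
  Quotient.out o

theorem rp_inj {o o' : Quotient (st hpd)} {g : G}
    (h : rel (tfx H p) (gs g (rp hpd o).1) (rp hpd o').1) : o = o' := by
  rw [← Quotient.out_eq o, ← Quotient.out_eq o']
  exact Quotient.sound ⟨g, h⟩

/-- the index set: all vectors in the classes of the representatives -/
def Ix (hpd : PD (tfx H p)) : Type _ :=
  Σ o : Quotient (st hpd), {y : fx p // y ∈ R (tfx H p) ∧ rel (tfx H p) (rp hpd o).1 y}

theorem ix_orth (a b : Ix hpd) (g : G) (hne : tfx H p (gs g a.2.1) b.2.1 ≠ 0) :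
    a.1 = b.1 ∧ g ∈ stb hpd (rp hpd a.1) := by
  obtain ⟨o, x, hx, hx'⟩ := a
  obtain ⟨o', y, hy, hy'⟩ := b
  have hrel : rel (tfx H p) (gs g x) y := by
    by_contra h
    exact hne (hpd.orth (gs_R _ hx) h)
  have h2 : rel (tfx H p) (gs g (rp hpd o).1) (rp hpd o').1 := by
    refine hpd.rel_trans (gs_R _ (rp hpd o).2) (gs_R _ hx) (rp hpd o').2 (gs_rel g hx') ?_
    exact hpd.rel_trans (gs_R _ hx) hy (rp hpd o').2 hrel (hpd.rel_symm hy')
  have h3 := rp_inj hpd h2
  subst h3
  exact ⟨rfl, h2⟩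

theorem ix_span (hgen : Submodule.span ℤ (R (tfx H p)) = ⊤) :
    Submodule.span (MonoidAlgebra ℤ G) (Set.range fun a : Ix hpd => a.2.1) = ⊤ := by
  rw [eq_top_iff]
  have h1 : (⊤ : Submodule ℤ (fx p)) ≤
      (Submodule.span (MonoidAlgebra ℤ G)
        (Set.range fun a : Ix hpd => a.2.1)).restrictScalars ℤ := by
    rw [← hgen, Submodule.span_le]
    intro y hy
    change y ∈ Submodule.span (MonoidAlgebra ℤ G) _
    obtain ⟨g, hg⟩ : ∃ g, rel (tfx H p) (gs g (rp hpd (Quotient.mk (st hpd) ⟨y, hy⟩)).1) y :=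
      Quotient.exact (Quotient.out_eq (Quotient.mk (st hpd) ⟨y, hy⟩))
    have h2 : rel (tfx H p) (rp hpd (Quotient.mk (st hpd) ⟨y, hy⟩)).1 (gs g⁻¹ y) := by
      have := gs_rel g⁻¹ hg
      rwa [gs_inv_gs] at this
    have h4 : gs g⁻¹ y ∈ Submodule.span (MonoidAlgebra ℤ G)
        (Set.range fun a : Ix hpd => a.2.1) :=
      Submodule.subset_span ⟨⟨Quotient.mk (st hpd) ⟨y, hy⟩, gs g⁻¹ y, gs_R _ hy, h2⟩, rfl⟩
    have h5 := Submodule.smul_mem _ (single g 1 : MonoidAlgebra ℤ G) h4
    have h6 : (single g 1 : MonoidAlgebra ℤ G) • gs g⁻¹ y = y := gs_gs_inv g y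
    rwa [h6] at h5
  intro y _
  exact h1 Submodule.mem_top

/-- a finite part of the index set generates -/
theorem ix_finite (hfg : (⊤ : Submodule (MonoidAlgebra ℤ G) (fx p)).FG)
    (hcl : ∀ x ∈ R (tfx H p), {y | y ∈ R (tfx H p) ∧ rel (tfx H p) x y}.Finite)
    (hgen : Submodule.span ℤ (R (tfx H p)) = ⊤) : Finite (Ix hpd) := by
  classical
  have hspan := ix_span hpd hgen
  obtain ⟨F, hF⟩ := hfg
  have h1 : ∀ x ∈ F, ∃ T : Finset (fx p), (T : Set (fx p)) ⊆ Set.range (fun a : Ix hpd => a.2.1) ∧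
      x ∈ Submodule.span (MonoidAlgebra ℤ G) (T : Set (fx p)) := by
    intro x _
    refine Submodule.mem_span_finite_of_mem_span ?_
    rw [hspan]; exact Submodule.mem_top
  choose! T hT1 hT2 using h1
  let T0 : Finset (fx p) := F.biUnion T
  have hT0 : Submodule.span (MonoidAlgebra ℤ G) (T0 : Set (fx p)) = ⊤ := by
    rw [eq_top_iff, ← hF, Submodule.span_le]
    intro x hx
    exact Submodule.span_mono (by
      intro y hy
      exact Finset.mem_coe.2 (Finset.mem_biUnion.2 ⟨x, hx, hy⟩)) (hT2 x hx)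
  have hT0r : ∀ y ∈ T0, ∃ a : Ix hpd, a.2.1 = y := by
    intro y hy
    obtain ⟨x, hx, hy'⟩ := Finset.mem_biUnion.1 hy
    exact hT1 x hx hy'
  -- every orbit meets `T0`
  have hO : ∀ o : Quotient (st hpd), ∃ y ∈ T0, ∃ a : Ix hpd, a.2.1 = y ∧ a.1 = o := by
    intro o
    by_contra hcon
    push Not at hcon
    have hperp : ∀ z : fx p, tfx H p (rp hpd o).1 z = 0 := by
      intro z
      have hz : z ∈ Submodule.span (MonoidAlgebra ℤ G) (T0 : Set (fx p)) := by
        rw [hT0]; exact Submodule.mem_top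
      have hzz : ∀ g : G, tfx H p (gs g (rp hpd o).1) z = 0 := by
        induction hz using Submodule.span_induction with
        | mem y hy =>
          intro g
          obtain ⟨a, ha⟩ := hT0r y hy
          by_contra hne
          let b : Ix hpd := ⟨o, (rp hpd o).1, (rp hpd o).2, hpd.rel_refl (rp hpd o).2⟩
          rw [← ha] at hne
          have := (ix_orth hpd b a g hne).1
          exact hcon y hy a ha this.symm
        | zero => intro g; simp
        | add x y _ _ hx hy => intro g; rw [map_add, hx, hy, add_zero]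
        | smul c x _ hx =>
          intro g
          induction c using MonoidAlgebra.induction_linear with
          | zero => rw [zero_smul, map_zero]
          | add c d hc hd => rw [add_smul, map_add, hc, hd, add_zero]
          | single k n =>
            have h5 : (single k n : MonoidAlgebra ℤ G) • x = n • gs k x := by
              unfold gs
              have : (single k n : MonoidAlgebra ℤ G) = n • single k 1 := by
                rw [smul_single']; simp
              rw [this, smul_assoc]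
            rw [h5, map_smul]
            have h6 : tfx H p (gs g (rp hpd o).1) (gs k x)
                = tfx H p (gs (k⁻¹ * g) (rp hpd o).1) x := by
              rw [← tf_gs k⁻¹, gs_gs, gs_inv_gs]
            rw [h6, hx, smul_zero]
      have := hzz 1
      rwa [gs_one] at this
    exact hpd.self_ne (rp hpd o).2 (hperp _)
  have hOfin : Finite (Quotient (st hpd)) := by
    choose y hy a ha hao using hO
    refine Finite.of_injective (fun o => (⟨y o, hy o⟩ : T0)) ?_
    intro o o' h
    have h1 : y o = y o' := congrArg Subtype.val h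
    have h2 : (a o).2.1 = (a o').2.1 := by rw [ha, ha, h1]
    have h3 : tfx H p (gs 1 (a o).2.1) (a o').2.1 ≠ 0 := by
      rw [gs_one, h2]
      exact hpd.self_ne (a o').2.2.1
    have h4 := (ix_orth hpd (a o) (a o') 1 h3).1
    rw [hao, hao] at h4
    exact h4
  have : ∀ o : Quotient (st hpd),
      Finite {y : fx p // y ∈ R (tfx H p) ∧ rel (tfx H p) (rp hpd o).1 y} :=
    fun o => (hcl _ (rp hpd o).2).to_subtype
  unfold Ix
  infer_instance

end Pool.Agent.U450.RL.Gen
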