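import Pool.Agent.U450.RL.Lfp
import Pool.Agent.U450.RL.Coer

set_option autoImplicit false
set_option linter.unusedSectionVars false

/-! Nonsingular forms on projective modules over the integral group ring: coercivity and local
finiteness. -/

namespace Pool.Agent.U450.RL

open MonoidAlgebra Matrix

variable {G : Type*} [Group G] {ι : Type*} [Fintype ι] [DecidableEq ι]

/-- entrywise involution -/
noncomputable def bv {κ : Type*} (y : κ → MonoidAlgebra ℤ G) : κ → MonoidAlgebra ℤ G :=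
  fun j => bar (y j)

theorem bv_vecMul {κ : Type*} (y : ι → MonoidAlgebra ℤ G) (M : Matrix ι κ (MonoidAlgebra ℤ G)) :
    bv (y ᵥ* M) = adj M *ᵥ bv y := by
  funext j
  change bar (∑ i, y i * M i j) = ∑ i, bar (M i j) * bar (y i)
  rw [bar_sum]
  exact Finset.sum_congr rfl fun i _ => bar_mul _ _

theorem hf_eq (M : Matrix ι ι (MonoidAlgebra ℤ G)) (x y : ι → MonoidAlgebra ℤ G) :
    hf M x y = (x ᵥ* M) ⬝ᵥ bv y := rfl

theorem hf_vecMul_left (M N : Matrix ι ι (MonoidAlgebra ℤ G)) (x y : ι → MonoidAlgebra ℤ G) :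
    hf M (x ᵥ* N) y = hf (N * M) x y := by
  rw [hf_eq, hf_eq, Matrix.vecMul_vecMul]

theorem hf_vecMul_right (M N : Matrix ι ι (MonoidAlgebra ℤ G)) (x y : ι → MonoidAlgebra ℤ G) :
    hf M x (y ᵥ* N) = hf (M * adj N) x y := by
  rw [hf_eq, hf_eq, bv_vecMul, Matrix.dotProduct_mulVec, Matrix.vecMul_vecMul]

theorem schur_mat (M : Matrix ι ι (MonoidAlgebra ℤ G)) :
    ∃ C : ℕ, ∀ x : ι → MonoidAlgebra ℤ G, tr (hf M x x) ≤ C * nn x := by
  choose c hc using fun i j => schur (M i j)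
  refine ⟨2 * ∑ i, ∑ j, c i j, fun x => ?_⟩
  have h1 : hf M x x = ∑ j, ∑ i, x i * M i j * bar (x j) := by
    unfold hf
    exact Finset.sum_congr rfl fun j _ => Finset.sum_mul _ _ _
  have h5 : ∀ i, tr (x i * bar (x i)) ≤ nn x := fun i =>
    Finset.single_le_sum (f := fun i => tr (x i * bar (x i)))
      (fun i _ => nsq_nonneg _) (Finset.mem_univ i)
  rw [h1, map_sum]
  have h2 : ∀ j, tr (∑ i, x i * M i j * bar (x j)) ≤ ∑ i, (c i j : ℤ) * (2 * nn x) := by
    intro j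
    rw [map_sum]
    refine Finset.sum_le_sum fun i _ => ?_
    refine (le_abs_self _).trans ((hc i j (x i) (x j)).trans ?_)
    refine mul_le_mul_of_nonneg_left ?_ (by positivity)
    linarith [h5 i, h5 j]
  refine (Finset.sum_le_sum fun j _ => h2 j).trans (le_of_eq ?_)
  rw [Finset.sum_comm]
  push_cast
  simp only [Finset.mul_sum, Finset.sum_mul]
  refine Finset.sum_congr rfl fun i _ => Finset.sum_congr rfl fun j _ => ?_
  ring

variable (H : Matrix ι ι (MonoidAlgebra ℤ G))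

theorem coercive' (hH : adj H = H) (K : Matrix ι ι (MonoidAlgebra ℤ G))
    (hpos : ∀ x, 0 ≤ tf H x x) :
    ∃ C : ℕ, ∀ x : ι → MonoidAlgebra ℤ G, x ᵥ* (H * K) = x → nn x ≤ C * tf H x x := by
  obtain ⟨C, hC⟩ := schur_mat (adj K * H * K)
  refine ⟨C, fun x hx => ?_⟩
  have hp : adj K * H = adj (H * K) := by rw [adj_mul, hH]
  have h1 : tf H (x ᵥ* adj K) x = nn x := by
    have h2 : bv x = adj (H * K) *ᵥ bv x := by rw [← bv_vecMul, hx]
    rw [tf_apply, hf_vecMul_left, hp, hf_eq, ← Matrix.dotProduct_mulVec, ← h2]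
    change tr (∑ i, x i * bar (x i)) = _
    rw [map_sum]; rfl
  have h3 : tf H (x ᵥ* adj K) (x ᵥ* adj K) ≤ C * nn x := by
    rw [tf_apply, hf_vecMul_left, hf_vecMul_right, adj_adj]
    exact hC x
  have hs := LinearMap.BilinForm.apply_mul_apply_le_of_forall_zero_le (tf H) hpos (x ᵥ* adj K) x
  rw [tf_symm H hH x (x ᵥ* adj K), h1] at hs
  have h0 := nn_nonneg x
  rcases h0.eq_or_lt with h0 | h0
  · rw [← h0]
    exact mul_nonneg (by positivity) (hpos x)
  · have h6 : nn x * nn x ≤ nn x * (C * tf H x x) := by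
      calc nn x * nn x ≤ tf H (x ᵥ* adj K) (x ᵥ* adj K) * tf H x x := hs
        _ ≤ (C * nn x) * tf H x x := mul_le_mul_of_nonneg_right h3 (hpos x)
        _ = nn x * (C * tf H x x) := by ring
    exact le_of_mul_le_mul_left h6 h0

theorem coeff_vecMul_ne {κ : Type*} (x : ι → MonoidAlgebra ℤ G)
    (M : Matrix ι κ (MonoidAlgebra ℤ G)) (k : κ) (h : G) (hne : ((x ᵥ* M) k).coeff h ≠ 0) :
    ∃ i g, (x i).coeff g ≠ 0 ∧ (M i k).coeff (g⁻¹ * h) ≠ 0 := by
  by_contra hcon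
  push Not at hcon
  refine hne ?_
  change (∑ i, x i * M i k).coeff h = 0
  rw [coeff_sum, Finsupp.coe_finsetSum, Finset.sum_apply]
  refine Finset.sum_eq_zero fun i _ => ?_
  rw [coeff_mul_apply_left, Finsupp.sum]
  refine Finset.sum_eq_zero fun g hg => ?_
  rw [hcon i g (Finsupp.mem_support_iff.1 hg), mul_zero]

theorem tf_ne (x y : ι → MonoidAlgebra ℤ G) (hne : tf H x y ≠ 0) :
    ∃ i g j h, (x i).coeff g ≠ 0 ∧ (y j).coeff h ≠ 0 ∧ (H i j).coeff (g⁻¹ * h) ≠ 0 := by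
  have h1 : ∃ j, tr ((x ᵥ* H) j * bar (y j)) ≠ 0 := by
    by_contra hcon
    push Not at hcon
    refine hne ?_
    rw [tf_apply, hf_eq]
    change tr (∑ j, (x ᵥ* H) j * bar (y j)) = 0
    rw [map_sum]
    exact Finset.sum_eq_zero fun j _ => hcon j
  obtain ⟨j, hj⟩ := h1
  rw [tr_mul_bar] at hj
  obtain ⟨h, hh, hne2⟩ := Finset.exists_ne_zero_of_sum_ne_zero hj
  obtain ⟨i, g, h2, h3⟩ := coeff_vecMul_ne x H j h (left_ne_zero_of_mul hne2)
  exact ⟨i, g, j, h, h2, right_ne_zero_of_mul hne2, h3⟩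

/-- adjacency of coordinates -/
def Adj (D : Matrix ι ι (MonoidAlgebra ℤ G)) (s t : Σ _ : ι, G) : Prop :=
  (H s.1 t.1).coeff (s.2⁻¹ * t.2) ≠ 0 ∨
    ∃ k l, (D s.1 k).coeff (s.2⁻¹ * l) ≠ 0 ∧ (D t.1 k).coeff (t.2⁻¹ * l) ≠ 0

theorem adj_finite (D : Matrix ι ι (MonoidAlgebra ℤ G)) (s : Σ _ : ι, G) :
    {t | Adj H D s t}.Finite := by
  classical
  obtain ⟨i, g⟩ := s
  have h1 : (⋃ j : ι, (fun a : G => (⟨j, g * a⟩ : Σ _ : ι, G)) ''
      ((H i j).coeff.support : Set G)).Finite :=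
    Set.finite_iUnion fun j => (Finset.finite_toSet _).image _
  have h2 : (⋃ j : ι, ⋃ k : ι, (fun a : G × G => (⟨j, g * a.1 * a.2⁻¹⟩ : Σ _ : ι, G)) ''
      (((D i k).coeff.support : Set G) ×ˢ ((D j k).coeff.support : Set G))).Finite :=
    Set.finite_iUnion fun j => Set.finite_iUnion fun k =>
      ((Finset.finite_toSet _).prod (Finset.finite_toSet _)).image _
  refine (h1.union h2).subset ?_
  rintro ⟨j, h⟩ (h3 | ⟨k, l, h3, h4⟩)
  · left
    refine Set.mem_iUnion.2 ⟨j, g⁻¹ * h, Finsupp.mem_support_iff.2 h3, ?_⟩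
    simp
  · right
    refine Set.mem_iUnion.2 ⟨j, Set.mem_iUnion.2 ⟨k, (g⁻¹ * l, h⁻¹ * l),
      ⟨Finsupp.mem_support_iff.2 h3, Finsupp.mem_support_iff.2 h4⟩, ?_⟩⟩
    simp

/-- the vectors fixed by a matrix -/
noncomputable def fx (p : Matrix ι ι (MonoidAlgebra ℤ G)) :
    Submodule (MonoidAlgebra ℤ G) (ι → MonoidAlgebra ℤ G) where
  carrier := {x | x ᵥ* p = x}
  add_mem' {x y} hx hy := by
    change (x + y) ᵥ* p = x + y
    rw [Matrix.add_vecMul, hx, hy]
  zero_mem' := Matrix.zero_vecMul p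
  smul_mem' a x hx := by
    change (a • x) ᵥ* p = a • x
    rw [Matrix.smul_vecMul, hx]

theorem mem_fx {p : Matrix ι ι (MonoidAlgebra ℤ G)} {x : ι → MonoidAlgebra ℤ G} :
    x ∈ fx p ↔ x ᵥ* p = x := Iff.rfl

/-- the trace form on the fixed vectors -/
noncomputable def tfx (p : Matrix ι ι (MonoidAlgebra ℤ G)) : fx p →ₗ[ℤ] fx p →ₗ[ℤ] ℤ :=
  (tf H).compl₁₂ ((fx p).subtype.restrictScalars ℤ) ((fx p).subtype.restrictScalars ℤ)

theorem tfx_apply (p : Matrix ι ι (MonoidAlgebra ℤ G)) (x y : fx p) :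
    tfx H p x y = tf H x.1 y.1 := rfl

theorem pdx (hH : adj H = H) (K : Matrix ι ι (MonoidAlgebra ℤ G)) (hpos : ∀ x, 0 ≤ tf H x x) :
    PD (tfx H (H * K)) := by
  refine ⟨fun x y => tf_symm H hH _ _, fun x hx => ?_⟩
  obtain ⟨C, hC⟩ := coercive' H hH K hpos
  have h1 : 0 < nn x.1 := nn_pos fun h => hx (Subtype.ext h)
  have h2 := hC x.1 x.2
  rw [tfx_apply]
  rcases (hpos x.1).eq_or_lt with h3 | h3
  · rw [← h3] at h2; omega
  · exact h3

theorem local_finite' (hH : adj H = H) (K : Matrix ι ι (MonoidAlgebra ℤ G))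
    (hpos : ∀ x, 0 ≤ tf H x x) (x : fx (H * K)) :
    {y | y ∈ R2 (tfx H (H * K)) ∧ tfx H (H * K) x y ≠ 0}.Finite := by
  classical
  obtain ⟨C, hC⟩ := coercive' H hH K hpos
  have hpd := pdx H hH K hpos
  let D : Matrix ι ι (MonoidAlgebra ℤ G) := H * K - 1
  let φ : fx (H * K) →ₗ[ℤ] ((Σ _ : ι, G) →₀ ℤ) :=
    co.toLinearMap.comp ((fx (H * K)).subtype.restrictScalars ℤ)
  have hφ : ∀ x t, φ x t = (x.1 t.1).coeff t.2 := fun x t => rfl
  have hinj : Function.Injective φ := fun x y h => Subtype.ext (co.injective h)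
  let N : (Σ _ : ι, G) → Finset (Σ _ : ι, G) := fun s => (adj_finite H D s).toFinset
  have hN : ∀ s t, t ∈ N s ↔ Adj H D s t := fun s t => (adj_finite H D s).mem_toFinset
  refine lfp hpd φ hinj N ?_ ?_ C ?_ x
  · intro x y hne
    obtain ⟨i, g, j, h, h1, h2, h3⟩ := tf_ne H x.1 y.1 hne
    exact ⟨⟨i, g⟩, Finsupp.mem_support_iff.2 h1, ⟨j, h⟩, Finsupp.mem_support_iff.2 h2,
      (hN _ _).2 (Or.inl h3)⟩
  · intro y A hA
    let a : ι → MonoidAlgebra ℤ G := co.symm ((co y.1).filter (· ∈ A))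
    let b : ι → MonoidAlgebra ℤ G := co.symm ((co y.1).filter (fun i => ¬ i ∈ A))
    have hab : a + b = y.1 := by
      apply co.injective
      rw [map_add, LinearEquiv.apply_symm_apply, LinearEquiv.apply_symm_apply,
        Finsupp.filter_add_filter_not]
    have ha : ∀ t, (a t.1).coeff t.2 = if t ∈ A then (y.1 t.1).coeff t.2 else 0 := by
      intro t
      rw [← co_apply, LinearEquiv.apply_symm_apply, Finsupp.filter_apply]
      rfl
    have hb : ∀ t, (b t.1).coeff t.2 = if ¬ t ∈ A then (y.1 t.1).coeff t.2 else 0 := by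
      intro t
      rw [← co_apply, LinearEquiv.apply_symm_apply, Finsupp.filter_apply]
      rfl
    have hD : a ᵥ* D + b ᵥ* D = 0 := by
      rw [← Matrix.add_vecMul, hab, Matrix.vecMul_sub, Matrix.vecMul_one, mem_fx.1 y.2, sub_self]
    have haD : a ᵥ* D = 0 := by
      funext k
      ext l
      by_contra hne
      have hne' : ((a ᵥ* D) k).coeff l ≠ 0 := hne
      have hne2 : ((b ᵥ* D) k).coeff l ≠ 0 := by
        intro h0
        have h5 := congrArg (fun z : ι → MonoidAlgebra ℤ G => (z k).coeff l) hD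
        have h6 : ((a ᵥ* D) k).coeff l + ((b ᵥ* D) k).coeff l = 0 := h5
        rw [h0, add_zero] at h6
        exact hne' h6
      obtain ⟨i, g, e1, e2⟩ := coeff_vecMul_ne a D k l hne'
      obtain ⟨j, h, e3, e4⟩ := coeff_vecMul_ne b D k l hne2
      have f1 := ha ⟨i, g⟩
      have f2 := hb ⟨j, h⟩
      have g1 : (⟨i, g⟩ : Σ _ : ι, G) ∈ A := by
        by_contra hA
        rw [if_neg hA] at f1
        exact e1 f1
      have g2 : (⟨j, h⟩ : Σ _ : ι, G) ∉ A := by
        intro hA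
        rw [if_neg (not_not.2 hA)] at f2
        exact e3 f2
      rw [if_pos g1] at f1
      rw [if_pos g2] at f2
      refine hA ⟨i, g⟩ g1 ⟨j, h⟩ g2 ?_ ?_ ((hN _ _).2 (Or.inr ⟨k, l, e2, e4⟩))
      · rw [Finsupp.mem_support_iff, hφ, ← f1]; exact e1
      · rw [Finsupp.mem_support_iff, hφ, ← f2]; exact e3
    have hbD : b ᵥ* D = 0 := by
      rw [haD, zero_add] at hD; exact hD
    have hfix : ∀ z : ι → MonoidAlgebra ℤ G, z ᵥ* D = 0 → z ∈ fx (H * K) := by
      intro z hz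
      rw [Matrix.vecMul_sub, Matrix.vecMul_one, sub_eq_zero] at hz
      exact hz
    refine ⟨⟨a, hfix a haD⟩, ⟨b, hfix b hbD⟩, Subtype.ext hab, ?_, ?_, ?_, ?_⟩
    · intro t ht; rw [hφ, hφ]; exact (ha t).trans (if_pos ht)
    · intro t ht; rw [hφ]; exact (ha t).trans (if_neg ht)
    · intro t ht; rw [hφ]; exact (hb t).trans (if_neg (not_not.2 ht))
    · intro t ht; rw [hφ, hφ]; exact (hb t).trans (if_pos ht)
  · intro y T
    rw [tfx_apply]
    refine le_trans ?_ (hC y.1 y.2)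
    let U : Finset (Σ _ : ι, G) := Finset.univ.sigma fun i => (y.1 i).coeff.support
    have h1 : nn y.1 = ∑ t ∈ U, (φ y t) ^ 2 := by
      unfold nn
      rw [Finset.sum_sigma]
      refine Finset.sum_congr rfl fun i _ => ?_
      rw [nsq_eq]
      rfl
    rw [h1]
    calc ∑ t ∈ T, (φ y t) ^ 2 ≤ ∑ t ∈ T ∪ U, (φ y t) ^ 2 :=
          Finset.sum_le_sum_of_subset_of_nonneg Finset.subset_union_left
            fun t _ _ => sq_nonneg _
      _ = ∑ t ∈ U, (φ y t) ^ 2 := by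
          refine (Finset.sum_subset Finset.subset_union_right fun t _ ht => ?_).symm
          have : φ y t = 0 := by
            rw [hφ]
            by_contra hne
            exact ht (Finset.mem_sigma.2 ⟨Finset.mem_univ _, Finsupp.mem_support_iff.2 hne⟩)
          rw [this]; rfl

end Pool.Agent.U450.RL
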