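import Pool.Agent.U450.RL.GenB

set_option autoImplicit false
set_option linter.unusedSectionVars false

/-! Positive forms on projective modules over an arbitrary integral group ring which are generated by
vectors of norm at most two come from finite subgroups. -/

namespace Pool.Agent.U450.RL.Gen

open MonoidAlgebra Matrix

variable {G : Type*} [Group G]

/-- A matrix over the group ring is in blocks over subgroups: entries between different blocks
vanish, and the entries in the block `b` are in the group ring of the subgroup `C b`. -/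
def InBlocks {κ β : Type*} (ρ : κ → β) (C : β → Subgroup G)
    (M : Matrix κ κ (MonoidAlgebra ℤ G)) : Prop :=
  ∀ i j g, (M i j).coeff g ≠ 0 → ρ i = ρ j ∧ g ∈ C (ρ i)

section blocks

variable {κ β : Type*} [Fintype κ] {ρ : κ → β} {C : β → Subgroup G}

theorem coeff_mul_ne (M N : Matrix κ κ (MonoidAlgebra ℤ G)) {i j : κ} {g : G}
    (h : ((M * N) i j).coeff g ≠ 0) :
    ∃ k l, (M i k).coeff l ≠ 0 ∧ (N k j).coeff (l⁻¹ * g) ≠ 0 := by
  classical
  have h1 : ((M i ᵥ* N) j).coeff g ≠ 0 := h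
  obtain ⟨k, l, h2, h3⟩ := coeff_vecMul_ne (M i) N j g h1
  exact ⟨k, l, h2, h3⟩

theorem InBlocks.mul {M N : Matrix κ κ (MonoidAlgebra ℤ G)} (hM : InBlocks ρ C M)
    (hN : InBlocks ρ C N) : InBlocks ρ C (M * N) := by
  intro i j g h
  obtain ⟨k, l, h1, h2⟩ := coeff_mul_ne M N h
  obtain ⟨a1, a2⟩ := hM _ _ _ h1
  obtain ⟨b1, b2⟩ := hN _ _ _ h2
  refine ⟨a1.trans b1, ?_⟩
  rw [← a1] at b2
  have := (C (ρ i)).mul_mem a2 b2
  rwa [mul_inv_cancel_left] at this

/-- the block part -/
noncomputable def bp (ρ : κ → β) (C : β → Subgroup G) (M : Matrix κ κ (MonoidAlgebra ℤ G)) :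
    Matrix κ κ (MonoidAlgebra ℤ G) := by
  classical
  exact fun i j => .ofCoeff ((M i j).coeff.filter (fun g => ρ i = ρ j ∧ g ∈ C (ρ i)))

open Classical in
theorem coeff_bp (M : Matrix κ κ (MonoidAlgebra ℤ G)) (i j : κ) (g : G) :
    (bp ρ C M i j).coeff g = if ρ i = ρ j ∧ g ∈ C (ρ i) then (M i j).coeff g else 0 := by
  unfold bp
  exact Finsupp.filter_apply _ _ _

theorem bp_in (M : Matrix κ κ (MonoidAlgebra ℤ G)) : InBlocks ρ C (bp ρ C M) := by
  classical
  intro i j g h
  by_contra hcon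
  rw [coeff_bp, if_neg hcon] at h
  exact h rfl

theorem bp_key {h M : Matrix κ κ (MonoidAlgebra ℤ G)} (hh : InBlocks ρ C h)
    (hM : h * M * h = h) : h * bp ρ C M * h = h := by
  classical
  have h1 : InBlocks ρ C (h * bp ρ C M * h) := (hh.mul (bp_in M)).mul hh
  have h2 : ∀ i j g, ((h * (M - bp ρ C M) * h) i j).coeff g ≠ 0 →
      ¬ (ρ i = ρ j ∧ g ∈ C (ρ i)) := by
    rintro i j g hne ⟨hij, hg⟩
    obtain ⟨k, l, h3, h4⟩ := coeff_mul_ne _ _ hne
    obtain ⟨k', l', h5, h6⟩ := coeff_mul_ne _ _ h3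
    obtain ⟨a1, a2⟩ := hh _ _ _ h5
    obtain ⟨b1, b2⟩ := hh _ _ _ h4
    rw [Matrix.sub_apply, coeff_sub, Finsupp.sub_apply, coeff_bp] at h6
    rw [if_pos] at h6
    · exact h6 (sub_self _)
    · refine ⟨?_, ?_⟩
      · rw [← a1, hij, b1]
      · rw [← a1]
        have c1 : l⁻¹ * g ∈ C (ρ i) := by rw [hij, ← b1]; exact b2
        have c2 : l ∈ C (ρ i) := by
          have := (C (ρ i)).mul_mem hg ((C (ρ i)).inv_mem c1)
          rwa [_root_.mul_inv_rev, inv_inv, mul_inv_cancel_left] at this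
        exact (C (ρ i)).mul_mem ((C (ρ i)).inv_mem a2) c2
  have h3 : h * bp ρ C M * h + h * (M - bp ρ C M) * h = h := by
    rw [← Matrix.add_mul, ← Matrix.mul_add, add_sub_cancel, hM]
  ext i j g
  have h4 : ((h * bp ρ C M * h) i j).coeff g + ((h * (M - bp ρ C M) * h) i j).coeff g
      = (h i j).coeff g :=
    congrArg (fun z : Matrix κ κ (MonoidAlgebra ℤ G) => (z i j).coeff g) h3
  by_cases h5 : ρ i = ρ j ∧ g ∈ C (ρ i)
  · have h6 : ((h * (M - bp ρ C M) * h) i j).coeff g = 0 := by
      by_contra h7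
      exact h2 _ _ _ h7 h5
    rw [h6, add_zero] at h4
    exact h4
  · have h6 : ((h * bp ρ C M * h) i j).coeff g = 0 := by
      by_contra h7
      exact h5 (h1 _ _ _ h7)
    have h7 : (h i j).coeff g = 0 := by
      by_contra h8
      exact h5 (hh _ _ _ h8)
    rw [h6, h7]

end blocks

/-- spans of invariant sets -/
theorem span_int' {V : Type*} [AddCommGroup V] [Module (MonoidAlgebra ℤ G) V] (S : Set V)
    (hS : ∀ g : G, ∀ x ∈ S, (single g 1 : MonoidAlgebra ℤ G) • x ∈ S)
    (h : Submodule.span (MonoidAlgebra ℤ G) S = ⊤) : Submodule.span ℤ S = ⊤ := by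
  have h0 : ∀ (g : G) (n : ℤ) (x : V), (single g n : MonoidAlgebra ℤ G) • x
      = n • ((single g 1 : MonoidAlgebra ℤ G) • x) := by
    intro g n x
    have : (single g n : MonoidAlgebra ℤ G) = n • single g 1 := by
      rw [smul_single']; simp
    rw [this, smul_assoc]
  have h1 : ∀ g : G, ∀ x ∈ Submodule.span ℤ S,
      (single g 1 : MonoidAlgebra ℤ G) • x ∈ Submodule.span ℤ S := by
    intro g x hx
    induction hx using Submodule.span_induction with
    | mem x hx => exact Submodule.subset_span (hS g x hx)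
    | zero => rw [smul_zero]; exact Submodule.zero_mem _
    | add x y _ _ hx hy => rw [smul_add]; exact Submodule.add_mem _ hx hy
    | smul n x _ hx =>
      rw [smul_comm]; exact Submodule.smul_mem _ _ hx
  have h2 : ∀ a : MonoidAlgebra ℤ G, ∀ x ∈ Submodule.span ℤ S, a • x ∈ Submodule.span ℤ S := by
    intro a x hx
    induction a using MonoidAlgebra.induction_linear with
    | zero => rw [zero_smul]; exact Submodule.zero_mem _
    | add a b ha hb => rw [add_smul]; exact Submodule.add_mem _ ha hb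
    | single g n =>
      rw [h0]
      exact Submodule.smul_mem _ _ (h1 g x hx)
  rw [eq_top_iff]
  intro x _
  have hx : x ∈ Submodule.span (MonoidAlgebra ℤ G) S := by rw [h]; exact Submodule.mem_top
  induction hx using Submodule.span_induction with
  | mem x hx => exact Submodule.subset_span hx
  | zero => exact Submodule.zero_mem _
  | add x y _ _ hx hy => exact Submodule.add_mem _ (hx trivial) (hy trivial)
  | smul a x _ hx => exact h2 a x (hx trivial)

/-- the entries of `P H P*` -/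
theorem mul_adj_apply' {ι κ : Type*} [Fintype ι] [Fintype κ] (H : Matrix ι ι (MonoidAlgebra ℤ G))
    (P : Matrix κ ι (MonoidAlgebra ℤ G)) (i j : κ) :
    (P * H * adj P) i j = hf H (P i) (P j) := by
  rw [Matrix.mul_apply]
  refine Finset.sum_congr rfl fun k _ => ?_
  rw [Matrix.mul_apply]
  rfl

universe u v

theorem main {G : Type u} [Group G] {ι : Type v} [Fintype ι] [DecidableEq ι]
    (H K : Matrix ι ι (MonoidAlgebra ℤ G)) (hH : adj H = H) (hK : H * K * H = H)
    (hpos : ∀ x : ι → MonoidAlgebra ℤ G, 0 ≤ (hf H x x).coeff 1)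
    (hgen : Submodule.span (MonoidAlgebra ℤ G)
      {x : ι → MonoidAlgebra ℤ G | (hf H x x).coeff 1 ≤ 2} = ⊤) :
    ∃ (κ β : Type (max u v)) (_ : Fintype κ) (_ : Finite β) (ρ : κ → β) (C : β → Subgroup G)
      (S : Matrix κ ι (MonoidAlgebra ℤ G)) (T : Matrix ι κ (MonoidAlgebra ℤ G))
      (k : Matrix κ κ (MonoidAlgebra ℤ G)),
      (∀ b, Finite (C b)) ∧ T * S * H = H ∧ InBlocks ρ C (S * H * adj S) ∧ InBlocks ρ C k ∧
      S * H * adj S * k * (S * H * adj S) = S * H * adj S := by
  classical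
  have hpos' : ∀ x, 0 ≤ tf H x x := hpos
  have hpd := pdx H hH K hpos'
  have hcl : ∀ x ∈ R (tfx H (H * K)), {y | y ∈ R (tfx H (H * K)) ∧
      rel (tfx H (H * K)) x y}.Finite := fun x hx =>
    hpd.class_finite (fun x _ => local_finite' H hH K hpos' x) hx
  have hpp : H * K * (H * K) = H * K := by
    rw [← Matrix.mul_assoc, hK]
  -- the projection
  let π : (ι → MonoidAlgebra ℤ G) →ₗ[MonoidAlgebra ℤ G] fx (H * K) :=
    (Matrix.vecMulLinear (H * K)).codRestrict (fx (H * K)) fun x => by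
      change (x ᵥ* (H * K)) ᵥ* (H * K) = x ᵥ* (H * K)
      rw [Matrix.vecMul_vecMul, hpp]
  have hπ : ∀ x, (π x).1 = x ᵥ* (H * K) := fun x => rfl
  have hsurj : Function.Surjective π := fun x => ⟨x.1, Subtype.ext x.2⟩
  have hnorm : ∀ x, tfx H (H * K) (π x) (π x) = tf H x x := by
    intro x
    rw [tfx_apply, hπ, tf_apply, tf_apply, hf_vecMul_left, hf_vecMul_right, hK, adj_mul, hH,
      ← Matrix.mul_assoc]
    have h1 : H * adj K * H = H := by
      have := congrArg adj hK
      rw [adj_mul, adj_mul, hH, ← Matrix.mul_assoc] at this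
      exact this
    rw [h1]
  have hgen1 : Submodule.span (MonoidAlgebra ℤ G)
      {x : fx (H * K) | tfx H (H * K) x x ≤ 2} = ⊤ := by
    rw [eq_top_iff]
    have h1 : Submodule.map π (Submodule.span (MonoidAlgebra ℤ G)
        {x : ι → MonoidAlgebra ℤ G | (hf H x x).coeff 1 ≤ 2}) = ⊤ := by
      rw [hgen, Submodule.map_top, LinearMap.range_eq_top.2 hsurj]
    rw [← h1, Submodule.map_span]
    refine Submodule.span_mono ?_
    rintro _ ⟨x, hx, rfl⟩
    change tfx H (H * K) (π x) (π x) ≤ 2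
    rw [hnorm]
    exact hx
  have hgen2 : Submodule.span ℤ (R (tfx H (H * K))) = ⊤ := by
    refine hpd.span_R (span_int' _ (fun g x hx => ?_) hgen1)
    change tfx H (H * K) (gs g x) (gs g x) ≤ 2
    rw [tf_gs]
    exact hx
  have hfg : (⊤ : Submodule (MonoidAlgebra ℤ G) (fx (H * K))).FG :=
    (Module.Finite.of_surjective π hsurj).fg_top
  have hfin := ix_finite hpd hfg hcl hgen2
  have : Fintype (Ix hpd) := Fintype.ofFinite _
  have hspan := ix_span hpd hgen2
  have hT : ∀ i, ∃ c : Ix hpd → MonoidAlgebra ℤ G,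
      ∑ a, c a • a.2.1 = π (Pi.single i 1) := by
    intro i
    rw [← Submodule.mem_span_range_iff_exists_fun, hspan]
    exact Submodule.mem_top
  choose T₀ hT using hT
  let T : Matrix ι (Ix hpd) (MonoidAlgebra ℤ G) := T₀
  let S : Matrix (Ix hpd) ι (MonoidAlgebra ℤ G) := fun a => a.2.1.1
  have hTS : T * S = H * K := by
    ext1 i j
    have h1 := congrArg (fun z : fx (H * K) => z.1 j) (hT i)
    have h2 : (∑ a, T₀ i a • a.2.1 : fx (H * K)).1 j = ∑ a, T i a * a.2.1.1 j := by
      rw [Submodule.coe_sum, Finset.sum_apply]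
      rfl
    rw [Matrix.mul_apply]
    change ∑ a, T i a * a.2.1.1 j = _
    rw [← h2, h1, hπ]
    rw [Matrix.single_one_vecMul]
    rfl
  have hbl : InBlocks (fun a : Ix hpd => a.1) (fun o => stb hpd (rp hpd o)) (S * H * adj S) := by
    intro a b g hne
    rw [mul_adj_apply', coeff_hf] at hne
    have h1 := ix_orth hpd a b g⁻¹ hne
    exact ⟨h1.1, by simpa using (stb hpd (rp hpd a.1)).inv_mem h1.2⟩
  refine ⟨Ix hpd, Quotient (st hpd), inferInstance, ?_, fun a => a.1,
    fun o => stb hpd (rp hpd o), S, T, bp _ _ (adj T * K * T), fun o => stb_finite hpd hcl _,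
    ?_, hbl, bp_in _, ?_⟩
  · exact Finite.of_surjective (fun a : Ix hpd => a.1) fun o =>
      ⟨⟨o, (rp hpd o).1, (rp hpd o).2, hpd.rel_refl (rp hpd o).2⟩, rfl⟩
  · rw [hTS, hK]
  · refine bp_key hbl ?_
    have e1 : T * (S * H * adj S) = H * adj S := by
      rw [← Matrix.mul_assoc, ← Matrix.mul_assoc, hTS, hK]
    have e2 : S * H * adj S * adj T = S * H := by
      rw [Matrix.mul_assoc, ← adj_mul, hTS, adj_mul, hH, Matrix.mul_assoc]
      congr 1
      have := congrArg adj hK
      rw [adj_mul, adj_mul, hH] at this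
      exact this
    calc S * H * adj S * (adj T * K * T) * (S * H * adj S)
        = (S * H * adj S * adj T) * K * (T * (S * H * adj S)) := by
          simp only [Matrix.mul_assoc]
      _ = S * (H * K * H) * adj S := by
          rw [e1, e2]; simp only [Matrix.mul_assoc]
      _ = S * H * adj S := by rw [hK]

section quadratic

variable {κ β : Type*} [Fintype κ] {ρ : κ → β} {C : β → Subgroup G}

/-- Over an arbitrary integral group ring, matrices with `D + D* = 0` are of the form `X - X*`. -/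
theorem skew' (D : Matrix κ κ (MonoidAlgebra ℤ G)) (hD : D + adj D = 0) :
    ∃ X : Matrix κ κ (MonoidAlgebra ℤ G), D = X - adj X := by
  classical
  refine ⟨fun i j => .ofCoeff ((D i j).coeff.filter
    fun g => WellOrderingRel (i, j, g) (j, i, g⁻¹)), ?_⟩
  ext i j g
  rw [Matrix.sub_apply, coeff_sub, Finsupp.sub_apply]
  change _ = ((D i j).coeff.filter fun g => WellOrderingRel (i, j, g) (j, i, g⁻¹)) g -
    ((D j i).coeff.filter fun g => WellOrderingRel (j, i, g) (i, j, g⁻¹)) g⁻¹
  have h3 : (D i j).coeff g + (D j i).coeff g⁻¹ = 0 := by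
    have := congrArg (fun M : Matrix κ κ (MonoidAlgebra ℤ G) => (M i j).coeff g) hD
    exact this
  rw [Finsupp.filter_apply, Finsupp.filter_apply, inv_inv]
  rcases trichotomous_of WellOrderingRel (i, j, g) (j, i, g⁻¹) with h | h | h
  · rw [if_pos h, if_neg (fun h'' => asymm_of WellOrderingRel h h''), sub_zero]
  · simp only [Prod.mk.injEq] at h
    obtain ⟨rfl, _, h4⟩ := h
    rw [← h4] at h3 ⊢
    have h6 : (D i i).coeff g = 0 := by omega
    rw [h6]
    simp
  · rw [if_neg (fun h'' => asymm_of WellOrderingRel h h''), if_pos h]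
    omega

theorem bp_self {M : Matrix κ κ (MonoidAlgebra ℤ G)} (hM : InBlocks ρ C M) : bp ρ C M = M := by
  classical
  ext i j g
  rw [coeff_bp]
  by_cases h : ρ i = ρ j ∧ g ∈ C (ρ i)
  · rw [if_pos h]
  · rw [if_neg h]
    by_contra hne
    exact h (hM _ _ _ (Ne.symm hne))

theorem bp_add (M N : Matrix κ κ (MonoidAlgebra ℤ G)) :
    bp ρ C (M + N) = bp ρ C M + bp ρ C N := by
  classical
  ext i j g
  rw [coeff_bp, Matrix.add_apply, Matrix.add_apply, coeff_add, coeff_add, Finsupp.add_apply,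
    Finsupp.add_apply, coeff_bp, coeff_bp]
  split_ifs <;> simp

theorem bp_adj (M : Matrix κ κ (MonoidAlgebra ℤ G)) :
    bp ρ C (adj M) = adj (bp ρ C M) := by
  classical
  ext i j g
  change _ = (bp ρ C M j i).coeff g⁻¹
  rw [coeff_bp, coeff_bp]
  change (if _ then (M j i).coeff g⁻¹ else 0) = _
  refine if_congr ?_ rfl rfl
  constructor
  · rintro ⟨h1, h2⟩
    exact ⟨h1.symm, by rw [← h1]; exact (C (ρ i)).inv_mem h2⟩
  · rintro ⟨h1, h2⟩
    refine ⟨h1.symm, ?_⟩
    rw [← h1]
    have := (C (ρ j)).inv_mem h2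
    rwa [inv_inv] at this

theorem quadg {ι : Type*} [Fintype ι] {H Q : Matrix ι ι (MonoidAlgebra ℤ G)}
    (S : Matrix κ ι (MonoidAlgebra ℤ G)) (hS : InBlocks ρ C (S * H * adj S))
    (hQ : Q + adj Q = H) :
    ∃ q X : Matrix κ κ (MonoidAlgebra ℤ G), InBlocks ρ C q ∧ q + adj q = S * H * adj S ∧
      S * Q * adj S = q + (X - adj X) := by
  have h1 : S * Q * adj S + adj (S * Q * adj S) = S * H * adj S := by
    rw [adj_mul, adj_mul, adj_adj, ← hQ, Matrix.mul_add, Matrix.add_mul, Matrix.mul_assoc S (adj Q)]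
  have h2 : bp ρ C (S * Q * adj S) + adj (bp ρ C (S * Q * adj S)) = S * H * adj S := by
    rw [← bp_adj, ← bp_add, h1, bp_self hS]
  obtain ⟨X, hX⟩ := skew' (S * Q * adj S - bp ρ C (S * Q * adj S)) (by
    rw [adj_sub]
    have h3 : S * Q * adj S - bp ρ C (S * Q * adj S) +
        (adj (S * Q * adj S) - adj (bp ρ C (S * Q * adj S)))
        = (S * Q * adj S + adj (S * Q * adj S)) -
          (bp ρ C (S * Q * adj S) + adj (bp ρ C (S * Q * adj S))) := by abel
    rw [h3, h1, h2, sub_self])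
  exact ⟨bp ρ C (S * Q * adj S), X, bp_in _, h2, by rw [← hX]; abel⟩

end quadratic

/-- the complete statement -/
theorem main' {G : Type u} [Group G] {ι : Type v} [Fintype ι] [DecidableEq ι]
    (H K : Matrix ι ι (MonoidAlgebra ℤ G)) (hH : adj H = H) (hK : H * K * H = H)
    (hpos : ∀ x : ι → MonoidAlgebra ℤ G, 0 ≤ (hf H x x).coeff 1)
    (hgen : Submodule.span (MonoidAlgebra ℤ G)
      {x : ι → MonoidAlgebra ℤ G | (hf H x x).coeff 1 ≤ 2} = ⊤) :
    ∃ (κ β : Type (max u v)) (_ : Fintype κ) (_ : Finite β) (ρ : κ → β) (C : β → Subgroup G)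
      (h k : Matrix κ κ (MonoidAlgebra ℤ G))
      (S : Matrix κ ι (MonoidAlgebra ℤ G)) (T : Matrix ι κ (MonoidAlgebra ℤ G)),
      (∀ b, Finite (C b)) ∧ InBlocks ρ C h ∧ InBlocks ρ C k ∧ adj h = h ∧ h * k * h = h ∧
      S * H * adj S = h ∧ T * h * adj T = H ∧ T * S * H = H ∧
      (∃ (X : Matrix ι κ (MonoidAlgebra ℤ G)) (Y : Matrix κ ι (MonoidAlgebra ℤ G)),
        X * Y = H * K ∧ Y * X = h * k) ∧
      ∀ Q : Matrix ι ι (MonoidAlgebra ℤ G), Q + adj Q = H →
        ∃ q X : Matrix κ κ (MonoidAlgebra ℤ G), InBlocks ρ C q ∧ q + adj q = h ∧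
          S * Q * adj S = q + (X - adj X) := by
  obtain ⟨κ, β, i1, i2, ρ, C, S, T, k, h1, h2, h3, h4, h5⟩ := main H K hH hK hpos hgen
  have e0 : H * adj S * adj T = H := by
    have := congrArg adj h2
    rw [adj_mul, adj_mul, hH, ← Matrix.mul_assoc] at this
    exact this
  have e1 : T * (S * H * adj S) = H * adj S := by
    rw [← Matrix.mul_assoc, ← Matrix.mul_assoc, h2]
  have e2 : S * H * adj S * adj T = S * H := by
    rw [Matrix.mul_assoc, Matrix.mul_assoc, ← Matrix.mul_assoc H, e0]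
  refine ⟨κ, β, i1, i2, ρ, C, S * H * adj S, k, S, T, h1, h3, h4, ?_, h5, rfl, ?_, h2, ?_, ?_⟩
  · rw [adj_mul, adj_mul, adj_adj, hH, Matrix.mul_assoc]
  · rw [e1, e0]
  · refine ⟨T * (S * H * adj S * k), S * H * K, ?_, ?_⟩
    · calc T * (S * H * adj S * k) * (S * H * K)
          = T * (S * H * adj S * k * (S * H)) * K := by simp only [Matrix.mul_assoc]
        _ = T * (S * H * adj S * k * (S * H * adj S * adj T)) * K := by rw [e2]
        _ = T * (S * H * adj S * k * (S * H * adj S) * adj T) * K := by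
            simp only [Matrix.mul_assoc]
        _ = H * K := by rw [h5, e2, ← Matrix.mul_assoc, h2]
    · calc S * H * K * (T * (S * H * adj S * k))
          = S * H * K * (T * (S * H * adj S)) * k := by simp only [Matrix.mul_assoc]
        _ = S * (H * K * H) * adj S * k := by rw [e1]; simp only [Matrix.mul_assoc]
        _ = S * H * adj S * k := by rw [hK]
  · intro Q hQ
    exact quadg S h3 hQ

end Pool.Agent.U450.RL.Gen
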