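import Pool.Agent.U450.RL.Fin

set_option autoImplicit false
set_option linter.unusedSectionVars false

/-! The form of Hambleton and Teichner over the integral group ring of a group with an element `t`
with `t² ≠ 1` is not extended from the integers. -/

namespace Pool.Agent.U450.RL

open MonoidAlgebra

variable {G : Type*} [Group G]

/-- `t + t⁻¹` -/
noncomputable def xt (t : G) : MonoidAlgebra ℤ G := single t 1 + single t⁻¹ 1

theorem bar_xt (t : G) : bar (xt t) = xt t := by
  unfold xt
  rw [bar_add, bar_single, bar_single, inv_inv, add_comm]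

theorem coeff_mul_xt (t : G) (a : MonoidAlgebra ℤ G) (h : G) :
    (a * xt t).coeff h = a.coeff (h * t⁻¹) + a.coeff (h * t) := by
  unfold xt
  rw [mul_add, coeff_add, Finsupp.add_apply, coeff_mul_single_apply, coeff_mul_single_apply,
    inv_inv, mul_one, mul_one]

/-- the form -/
noncomputable def ht (t : G) : Matrix (Fin 4) (Fin 4) (MonoidAlgebra ℤ G) :=
  !![1 + xt t + xt t * xt t, xt t + xt t * xt t, 1 + xt t, xt t;
     xt t + xt t * xt t, 1 + xt t + xt t * xt t, xt t, 1 + xt t;
     1 + xt t, xt t, 2, 0;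
     xt t, 1 + xt t, 0, 2]

/-- its inverse -/
noncomputable def hti (t : G) : Matrix (Fin 4) (Fin 4) (MonoidAlgebra ℤ G) :=
  !![2, 0, -(1 + xt t), -xt t;
     0, 2, -xt t, -(1 + xt t);
     -(1 + xt t), -xt t, 1 + xt t + xt t * xt t, xt t + xt t * xt t;
     -xt t, -(1 + xt t), xt t + xt t * xt t, 1 + xt t + xt t * xt t]

theorem ht_hti (t : G) : ht t * hti t = 1 := by
  generalize hx : xt t = x
  ext1 i j
  fin_cases i <;> fin_cases j <;>
    simp [Matrix.mul_apply, Fin.sum_univ_four, ht, hti, hx] <;> noncomm_ring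

theorem hti_ht (t : G) : hti t * ht t = 1 := by
  generalize hx : xt t = x
  ext1 i j
  fin_cases i <;> fin_cases j <;>
    simp [Matrix.mul_apply, Fin.sum_univ_four, ht, hti, hx] <;> noncomm_ring

theorem bar_two : bar (2 : MonoidAlgebra ℤ G) = 2 := by
  rw [← one_add_one_eq_two, bar_add, bar_one]

theorem adj_ht (t : G) : adj (ht t) = ht t := by
  ext1 i j
  change bar (ht t j i) = ht t i j
  fin_cases i <;> fin_cases j <;>
    simp [ht, bar_add, bar_mul, bar_one, bar_xt, bar_two, bar_zero]

theorem two_hf (t : G) (v : Fin 4 → MonoidAlgebra ℤ G) :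
    2 * hf (ht t) v v = v 0 * bar (v 0) + v 1 * bar (v 1)
      + (2 * v 2 + v 0 * (1 + xt t) + v 1 * xt t) *
          bar (2 * v 2 + v 0 * (1 + xt t) + v 1 * xt t)
      + (2 * v 3 + v 0 * xt t + v 1 * (1 + xt t)) *
          bar (2 * v 3 + v 0 * xt t + v 1 * (1 + xt t)) := by
  simp only [hf, Fin.sum_univ_four, bar_add, bar_mul, bar_one, bar_xt, bar_two]
  simp only [ht, Matrix.of_apply, Matrix.cons_val', Matrix.cons_val_zero, Matrix.cons_val_one,
    Matrix.cons_val, Matrix.cons_val_fin_one]
  noncomm_ring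

theorem two_tr (t : G) (v : Fin 4 → MonoidAlgebra ℤ G) :
    2 * tr (hf (ht t) v v) = tr (v 0 * bar (v 0)) + tr (v 1 * bar (v 1))
      + tr ((2 * v 2 + v 0 * (1 + xt t) + v 1 * xt t) *
          bar (2 * v 2 + v 0 * (1 + xt t) + v 1 * xt t))
      + tr ((2 * v 3 + v 0 * xt t + v 1 * (1 + xt t)) *
          bar (2 * v 3 + v 0 * xt t + v 1 * (1 + xt t))) := by
  rw [← map_add, ← map_add, ← map_add, ← two_hf, two_mul, two_mul, map_add]

theorem ht_nonneg (t : G) (v : Fin 4 → MonoidAlgebra ℤ G) : 0 ≤ (hf (ht t) v v).coeff 1 := by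
  have h := two_tr t v
  have h1 := nsq_nonneg (v 0)
  have h2 := nsq_nonneg (v 1)
  have h3 := nsq_nonneg (2 * v 2 + v 0 * (1 + xt t) + v 1 * xt t)
  have h4 := nsq_nonneg (2 * v 3 + v 0 * xt t + v 1 * (1 + xt t))
  rw [← tr_apply]
  omega

theorem nsq_ge (a : MonoidAlgebra ℤ G) (T : Finset G) :
    ∑ g ∈ T, (a.coeff g) ^ 2 ≤ tr (a * bar a) := by
  classical
  rw [nsq_eq]
  calc ∑ g ∈ T, (a.coeff g) ^ 2 ≤ ∑ g ∈ T ∪ a.coeff.support, (a.coeff g) ^ 2 :=
        Finset.sum_le_sum_of_subset_of_nonneg Finset.subset_union_left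
          fun t _ _ => sq_nonneg _
    _ = ∑ g ∈ a.coeff.support, (a.coeff g) ^ 2 := by
        refine (Finset.sum_subset Finset.subset_union_right fun g _ hg => ?_).symm
        rw [Finsupp.notMem_support_iff.1 hg]; rfl

theorem nsq_one (a : MonoidAlgebra ℤ G) (g : G) : (a.coeff g) ^ 2 ≤ tr (a * bar a) := by
  have := nsq_ge a {g}
  rwa [Finset.sum_singleton] at this

theorem nsq_two (a : MonoidAlgebra ℤ G) {g h : G} (hgh : g ≠ h) :
    (a.coeff g) ^ 2 + (a.coeff h) ^ 2 ≤ tr (a * bar a) := by
  classical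
  have := nsq_ge a {g, h}
  rwa [Finset.sum_pair hgh] at this

theorem nsq_even (a : MonoidAlgebra ℤ G) (h : ∀ g, Even (a.coeff g)) : (4 : ℤ) ∣ tr (a * bar a) := by
  rw [nsq_eq]
  refine Finset.dvd_sum fun g _ => ?_
  obtain ⟨k, hk⟩ := h g
  exact ⟨k ^ 2, by rw [hk]; ring⟩

theorem sq_pos_of_odd {z : ℤ} (h : Odd z) : 1 ≤ z ^ 2 := by
  have h0 : z ≠ 0 := by
    rintro rfl
    simp at h
  have := sq_nonneg z
  have h2 : z ^ 2 ≠ 0 := pow_ne_zero 2 h0
  omega

theorem coeff_p (t : G) (a b c : MonoidAlgebra ℤ G) (h : G) :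
    (2 * c + a * (1 + xt t) + b * xt t).coeff h = 2 * c.coeff h + a.coeff h
      + (a.coeff (h * t⁻¹) + a.coeff (h * t)) + (b.coeff (h * t⁻¹) + b.coeff (h * t)) := by
  have h2 : (2 * c).coeff h = 2 * c.coeff h := by
    rw [two_mul, coeff_add, Finsupp.add_apply]; ring
  rw [coeff_add, Finsupp.add_apply, coeff_add, Finsupp.add_apply, mul_add, mul_one, coeff_add,
    Finsupp.add_apply, coeff_mul_xt, coeff_mul_xt, h2]
  ring

theorem coeff_q (t : G) (a b c : MonoidAlgebra ℤ G) (h : G) :
    (2 * c + a * xt t + b * (1 + xt t)).coeff h = 2 * c.coeff h + b.coeff h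
      + (a.coeff (h * t⁻¹) + a.coeff (h * t)) + (b.coeff (h * t⁻¹) + b.coeff (h * t)) := by
  have h2 : (2 * c).coeff h = 2 * c.coeff h := by
    rw [two_mul, coeff_add, Finsupp.add_apply]; ring
  rw [coeff_add, Finsupp.add_apply, coeff_add, Finsupp.add_apply, mul_add, mul_one, coeff_add,
    Finsupp.add_apply, coeff_mul_xt, coeff_mul_xt, h2]
  ring

/-- there are no vectors of norm one -/
theorem ht_ne_one (t : G) (ht2 : t * t ≠ 1) (v : Fin 4 → MonoidAlgebra ℤ G) :
    tr (hf (ht t) v v) ≠ 1 := by
  intro hv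
  have h := two_tr t v
  rw [hv] at h
  set a := v 0
  set b := v 1
  set c := v 2
  set d := v 3
  have hp := coeff_p t a b c
  have hq := coeff_q t a b d
  set p := 2 * c + a * (1 + xt t) + b * xt t
  set q := 2 * d + a * xt t + b * (1 + xt t)
  by_cases hu : ∀ g, Even (a.coeff g + b.coeff g)
  · have hP : ∀ g, Even (p.coeff g - a.coeff g) := by
      intro g
      obtain ⟨k, hk⟩ := hu (g * t⁻¹)
      obtain ⟨l, hl⟩ := hu (g * t)
      exact ⟨c.coeff g + k + l, by rw [hp]; omega⟩
    have hQ : ∀ g, Even (q.coeff g - b.coeff g) := by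
      intro g
      obtain ⟨k, hk⟩ := hu (g * t⁻¹)
      obtain ⟨l, hl⟩ := hu (g * t)
      exact ⟨d.coeff g + k + l, by rw [hq]; omega⟩
    by_cases ha : ∀ g, Even (a.coeff g)
    · have hb : ∀ g, Even (b.coeff g) := fun g => by
        have := (hu g).sub (ha g)
        rwa [add_sub_cancel_left] at this
      have hp' : ∀ g, Even (p.coeff g) := fun g => by
        have := (hP g).add (ha g)
        rwa [sub_add_cancel] at this
      have hq' : ∀ g, Even (q.coeff g) := fun g => by
        have := (hQ g).add (hb g)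
        rwa [sub_add_cancel] at this
      obtain ⟨k1, e1⟩ := nsq_even a ha
      obtain ⟨k2, e2⟩ := nsq_even b hb
      obtain ⟨k3, e3⟩ := nsq_even p hp'
      obtain ⟨k4, e4⟩ := nsq_even q hq'
      omega
    · push Not at ha
      obtain ⟨g, hg⟩ := ha
      rw [Int.not_even_iff_odd] at hg
      have hb : Odd (b.coeff g) := by
        have := (hu g).sub_odd hg
        rwa [add_sub_cancel_left] at this
      have hp' : Odd (p.coeff g) := by
        have := (hP g).add_odd hg
        rwa [sub_add_cancel] at this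
      have hq' : Odd (q.coeff g) := by
        have := (hQ g).add_odd hb
        rwa [sub_add_cancel] at this
      have e1 := nsq_one a g
      have e2 := nsq_one b g
      have e3 := nsq_one p g
      have e4 := nsq_one q g
      have f1 := sq_pos_of_odd hg
      have f2 := sq_pos_of_odd hb
      have f3 := sq_pos_of_odd hp'
      have f4 := sq_pos_of_odd hq'
      omega
  · push Not at hu
    obtain ⟨g, hg⟩ := hu
    rw [Int.not_even_iff_odd] at hg
    have h1 : 1 ≤ (a.coeff g) ^ 2 + (b.coeff g) ^ 2 := by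
      rcases Int.even_or_odd (a.coeff g) with h2 | h2
      · have : Odd (b.coeff g) := by
          have := hg.sub_even h2
          rwa [add_sub_cancel_left] at this
        have := sq_pos_of_odd this
        have := sq_nonneg (a.coeff g)
        omega
      · have := sq_pos_of_odd h2
        have := sq_nonneg (b.coeff g)
        omega
    have h2 : 1 ≤ (p.coeff g) ^ 2 + (q.coeff g) ^ 2 := by
      have hpq : Odd (p.coeff g + q.coeff g) := by
        obtain ⟨k, hk⟩ := hg
        refine ⟨c.coeff g + d.coeff g + k + (a.coeff (g * t⁻¹) + a.coeff (g * t))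
          + (b.coeff (g * t⁻¹) + b.coeff (g * t)), ?_⟩
        rw [hp, hq]
        omega
      rcases Int.even_or_odd (p.coeff g) with h2 | h2
      · have : Odd (q.coeff g) := by
          have := hpq.sub_even h2
          rwa [add_sub_cancel_left] at this
        have := sq_pos_of_odd this
        have := sq_nonneg (p.coeff g)
        omega
      · have := sq_pos_of_odd h2
        have := sq_nonneg (q.coeff g)
        omega
    have h3 : ∀ k, g ≠ k → a.coeff k = 0 ∧ b.coeff k = 0 ∧ p.coeff k = 0 := by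
      intro k hk
      have e1 := nsq_two a hk
      have e2 := nsq_two b hk
      have e3 := nsq_two p hk
      have e4 := nsq_two q hk
      have f1 := sq_nonneg (a.coeff k)
      have f2 := sq_nonneg (b.coeff k)
      have f3 := sq_nonneg (p.coeff k)
      have f4 := sq_nonneg (q.coeff k)
      refine ⟨?_, ?_, ?_⟩
      · exact pow_eq_zero_iff two_ne_zero |>.1 (by omega)
      · exact pow_eq_zero_iff two_ne_zero |>.1 (by omega)
      · exact pow_eq_zero_iff two_ne_zero |>.1 (by omega)
    have t1 : t ≠ 1 := by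
      rintro rfl
      exact ht2 (mul_one 1)
    have h4 : g ≠ g * t := fun h => t1 (by simpa using h.symm)
    have h5 : g ≠ g * t * t := fun h => ht2 (by
      rw [mul_assoc] at h
      simpa using h.symm)
    obtain ⟨a1, -, p1⟩ := h3 _ h4
    obtain ⟨a2, b2, -⟩ := h3 _ h5
    have h6 := hp (g * t)
    rw [p1, a1, a2, b2, mul_inv_cancel_right] at h6
    obtain ⟨k, hk⟩ := hg
    omega

theorem tr_one : tr (1 : MonoidAlgebra ℤ G) = 1 := by
  rw [tr_apply, one_def, coeff_single, Finsupp.single_eq_same]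

theorem agm_ht (t : G) : agm (ht t) = !![7, 6, 3, 2; 6, 7, 2, 3; 3, 2, 2, 0; 2, 3, 0, 2] := by
  have hx : aug (xt t) = 2 := by
    unfold xt
    rw [map_add, aug_single, aug_single]; rfl
  ext1 i j
  change aug (ht t i j) = _
  have h2 : aug (2 : MonoidAlgebra ℤ G) = 2 := map_ofNat _ 2
  fin_cases i <;> fin_cases j <;> simp [ht, hx, h2]

/-- the form is not extended -/
theorem ht_not (t : G) (ht2 : t * t ≠ 1) (U : (Matrix (Fin 4) (Fin 4) (MonoidAlgebra ℤ G))ˣ)
    (M : Matrix (Fin 4) (Fin 4) ℤ) : U.val * ht t * adj U.val ≠ cst M := by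
  intro h
  have h5 : agm U⁻¹.val * agm U.val = 1 := by rw [← agm_mul, U.inv_mul, agm_one]
  have h6 : M = agm U.val * agm (ht t) * (agm U.val).transpose := by
    have := congrArg agm h
    rw [agm_cst, agm_mul, agm_mul, agm_adj] at this
    exact this.symm
  let v : Matrix (Fin 4) (Fin 4) ℤ := !![1, 0, -1, -1; 0, 0, 0, 0; 0, 0, 0, 0; 0, 0, 0, 0]
  let Y := cst (v * agm U⁻¹.val) * U.val
  have h7 : Y * ht t * adj Y = cst (v * agm (ht t) * v.transpose) := by
    calc Y * ht t * adj Y
        = cst (v * agm U⁻¹.val) * (U.val * ht t * adj U.val) * adj (cst (v * agm U⁻¹.val)) := by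
          change cst (v * agm U⁻¹.val) * U.val * ht t * adj (cst (v * agm U⁻¹.val) * U.val) = _
          rw [adj_mul]; simp only [Matrix.mul_assoc]
      _ = cst (v * agm U⁻¹.val * M * (v * agm U⁻¹.val).transpose) := by
          rw [h, adj_cst, cst_mul_sq (_ * M), cst_mul_sq _ M]
      _ = cst (v * agm (ht t) * v.transpose) := by
          congr 1
          rw [h6]
          calc v * agm U⁻¹.val * (agm U.val * agm (ht t) * (agm U.val).transpose) *
                (v * agm U⁻¹.val).transpose
              = v * (agm U⁻¹.val * agm U.val) * agm (ht t) *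
                  ((agm U.val).transpose * (agm U⁻¹.val).transpose) * v.transpose := by
                rw [Matrix.transpose_mul]; simp only [Matrix.mul_assoc]
            _ = v * agm (ht t) * v.transpose := by
                rw [← Matrix.transpose_mul, h5, Matrix.mul_one, Matrix.transpose_one,
                  Matrix.mul_one]
  have h8 := congrFun (congrFun h7 0) 0
  rw [mul_adj_apply] at h8
  have h9 : (v * agm (ht t) * v.transpose) 0 0 = 1 := by
    rw [agm_ht]
    decide
  have h10 : (cst (v * agm (ht t) * v.transpose) : Matrix (Fin 4) (Fin 4) (MonoidAlgebra ℤ G)) 0 0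
      = 1 := by
    change Int.castRingHom (MonoidAlgebra ℤ G) ((v * agm (ht t) * v.transpose) 0 0) = 1
    rw [h9, map_one]
  rw [h10] at h8
  exact ht_ne_one t ht2 (Y 0) (by rw [h8, tr_one])

/-- the form is generated by vectors of norm at most three -/
theorem ht_gen (t : G) (ht2 : t * t ≠ 1) :
    Submodule.span (MonoidAlgebra ℤ G) {x | (hf (ht t) x x).coeff 1 ≤ 3} = ⊤ := by
  have t1 : t ≠ 1 := by
    rintro rfl
    exact ht2 (mul_one 1)
  have hx : (xt t).coeff 1 = 0 := by
    unfold xt
    rw [coeff_add, Finsupp.add_apply, coeff_single, coeff_single, Finsupp.single_eq_of_ne,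
      Finsupp.single_eq_of_ne, add_zero]
    · exact fun h => t1 (by simpa using h.symm)
    · exact fun h => t1 h.symm
  have hxx : (xt t * xt t).coeff 1 = 2 := by
    rw [coeff_mul_xt, one_mul, one_mul]
    unfold xt
    rw [coeff_add, Finsupp.add_apply, Finsupp.add_apply, coeff_single, coeff_single,
      Finsupp.single_eq_same, Finsupp.single_eq_same, Finsupp.single_eq_of_ne,
      Finsupp.single_eq_of_ne]
    · rfl
    · exact fun h => ht2 (by rw [← mul_inv_cancel t]; congr 1)
    · exact fun h => ht2 (by rw [← inv_mul_cancel t, h])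
  have hdiag : ∀ i, (ht t i i).coeff 1 ≤ 3 := by
    have h1 : (1 : MonoidAlgebra ℤ G).coeff 1 = 1 := tr_one
    have h2 : (2 : MonoidAlgebra ℤ G).coeff 1 = 2 := by
      rw [← one_add_one_eq_two, coeff_add, Finsupp.add_apply, h1]; rfl
    intro i
    fin_cases i
    · change (1 + xt t + xt t * xt t).coeff 1 ≤ 3
      rw [coeff_add, Finsupp.add_apply, coeff_add, Finsupp.add_apply, hx, hxx, h1]; norm_num
    · change (1 + xt t + xt t * xt t).coeff 1 ≤ 3
      rw [coeff_add, Finsupp.add_apply, coeff_add, Finsupp.add_apply, hx, hxx, h1]; norm_num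
    · change (2 : MonoidAlgebra ℤ G).coeff 1 ≤ 3
      rw [h2]; norm_num
    · change (2 : MonoidAlgebra ℤ G).coeff 1 ≤ 3
      rw [h2]; norm_num
  rw [eq_top_iff]
  intro x _
  have h5 : (∑ i, x i • (Pi.single i 1 : Fin 4 → MonoidAlgebra ℤ G)) = x := by
    funext k
    rw [Finset.sum_apply, Finset.sum_eq_single k]
    · simp
    · intro i _ hi
      rw [Pi.smul_apply, Pi.single_eq_of_ne (Ne.symm hi), smul_zero]
    · intro h; exact absurd (Finset.mem_univ _) h
  rw [← h5]
  refine Submodule.sum_mem _ fun i _ => Submodule.smul_mem _ _ (Submodule.subset_span ?_)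
  change tf (ht t) (Pi.single i 1) (Pi.single i 1) ≤ 3
  have h6 := tf_single (ht t) i i (1 : G) 1
  rw [← one_def, inv_one, one_mul] at h6
  rw [h6]
  exact hdiag i

end Pool.Agent.U450.RL
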