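import Mathlib

set_option autoImplicit false

/-! Vectors of norm one and two in positive definite integral lattices of arbitrary rank. -/

namespace Pool.Agent.U450.RL

variable {V : Type*} [AddCommGroup V]

/-- A symmetric positive definite form with integral values. -/
structure PD (B : V →ₗ[ℤ] V →ₗ[ℤ] ℤ) : Prop where
  symm : ∀ x y, B x y = B y x
  pos : ∀ x, x ≠ 0 → 0 < B x x

variable {B : V →ₗ[ℤ] V →ₗ[ℤ] ℤ}

/-- vectors of norm two orthogonal to all vectors of norm one -/
def R2 (B : V →ₗ[ℤ] V →ₗ[ℤ] ℤ) : Set V := {x | B x x = 2 ∧ ∀ y, B y y = 1 → B x y = 0}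

/-- vectors of norm one, and vectors of norm two orthogonal to all of them -/
def R (B : V →ₗ[ℤ] V →ₗ[ℤ] ℤ) : Set V := {x | B x x = 1 ∨ x ∈ R2 B}

/-- having a common neighbour -/
def rel (B : V →ₗ[ℤ] V →ₗ[ℤ] ℤ) (x y : V) : Prop := ∃ z ∈ R B, B x z ≠ 0 ∧ B z y ≠ 0

namespace PD

theorem nonneg (h : PD B) (x : V) : 0 ≤ B x x := by
  by_cases hx : x = 0
  · rw [hx]; simp
  · exact (h.pos x hx).le

theorem eq_zero (h : PD B) {x : V} (hx : B x x = 0) : x = 0 := by
  by_contra h0
  have := h.pos x h0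
  omega

theorem cs (h : PD B) (x y : V) : B x y ^ 2 ≤ B x x * B y y := by
  have h1 := LinearMap.BilinForm.apply_mul_apply_le_of_forall_zero_le B h.nonneg x y
  rw [h.symm y x] at h1
  linarith [sq (B x y)]

/-- neighbours of a norm one vector -/
theorem one_one (h : PD B) {x y : V} (hx : B x x = 1) (hy : B y y = 1) (hxy : B x y ≠ 0) :
    y = x ∨ y = -x := by
  have h1 := h.cs x y
  rw [hx, hy] at h1
  have h2 : B x y = 1 ∨ B x y = -1 := by
    have : -1 ≤ B x y := by nlinarith
    have : B x y ≤ 1 := by nlinarith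
    omega
  rcases h2 with h2 | h2
  · left
    have : B (y - x) (y - x) = 0 := by
      simp only [map_sub, LinearMap.sub_apply]
      rw [h.symm y x]; omega
    exact sub_eq_zero.1 (h.eq_zero this)
  · right
    have : B (y + x) (y + x) = 0 := by
      simp only [map_add, LinearMap.add_apply]
      rw [h.symm y x]; omega
    exact eq_neg_of_add_eq_zero_left (h.eq_zero this)

theorem two_two (h : PD B) {x y : V} (hx : B x x = 2) (hy : B y y = 2) :
    (B x y = 0 ∨ B x y = 1 ∨ B x y = -1) ∨ y = x ∨ y = -x := by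
  have h1 := h.cs x y
  rw [hx, hy] at h1
  have h3 : -2 ≤ B x y := by nlinarith
  have h4 : B x y ≤ 2 := by nlinarith
  by_cases h5 : B x y = 2
  · right; left
    have : B (y - x) (y - x) = 0 := by
      simp only [map_sub, LinearMap.sub_apply]
      rw [h.symm y x]; omega
    exact sub_eq_zero.1 (h.eq_zero this)
  · by_cases h6 : B x y = -2
    · right; right
      have : B (y + x) (y + x) = 0 := by
        simp only [map_add, LinearMap.add_apply]
        rw [h.symm y x]; omega
      exact eq_neg_of_add_eq_zero_left (h.eq_zero this)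
    · left; omega

theorem self_ne (_h : PD B) {x : V} (hx : x ∈ R B) : B x x ≠ 0 := by
  rcases hx with h | ⟨h, _⟩ <;> omega

theorem cross (h : PD B) {x y : V} (hx : B x x = 1) (hy : y ∈ R2 B) : B x y = 0 := by
  rw [h.symm]; exact hy.2 x hx

theorem rel_refl (h : PD B) {x : V} (hx : x ∈ R B) : rel B x x :=
  ⟨x, hx, h.self_ne hx, h.self_ne hx⟩

theorem rel_symm (h : PD B) {x y : V} (hxy : rel B x y) : rel B y x := by
  obtain ⟨z, hz, h1, h2⟩ := hxy
  exact ⟨z, hz, by rwa [h.symm], by rwa [h.symm]⟩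

/-- paths of length three can be shortened -/
theorem p3 (h : PD B) {x a b y : V} (hx : x ∈ R B) (ha : a ∈ R B) (hb : b ∈ R B) (hy : y ∈ R B)
    (h1 : B x a ≠ 0) (h2 : B a b ≠ 0) (h3 : B b y ≠ 0) : rel B x y := by
  by_cases c1 : B x b ≠ 0
  · exact ⟨b, hb, c1, h3⟩
  by_cases c2 : B a y ≠ 0
  · exact ⟨a, ha, h1, c2⟩
  by_cases c3 : B x y ≠ 0
  · exact ⟨x, hx, h.self_ne hx, c3⟩
  push Not at c1 c2 c3
  rcases hx with hx | hx
  · rcases ha with ha | ha
    · rcases h.one_one hx ha h1 with rfl | rfl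
      · exact absurd c1 h2
      · simp only [map_neg, LinearMap.neg_apply] at h2
        omega
    · exact absurd (h.cross hx ha) h1
  · rcases ha with ha | ha
    · exact absurd (hx.2 a ha) h1
    rcases hb with hb | hb
    · exact absurd (ha.2 b hb) h2
    rcases hy with hy | hy
    · exact absurd (hb.2 y hy) h3
    have e1 : B x a = 1 ∨ B x a = -1 := by
      rcases h.two_two hx.1 ha.1 with h4 | rfl | rfl
      · omega
      · exact absurd c1 h2
      · simp only [map_neg, LinearMap.neg_apply] at h2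
        omega
    have e2 : B a b = 1 ∨ B a b = -1 := by
      rcases h.two_two ha.1 hb.1 with h4 | rfl | rfl
      · omega
      · exact absurd c1 h1
      · simp only [map_neg] at c1
        omega
    have e3 : B b y = 1 ∨ B b y = -1 := by
      rcases h.two_two hb.1 hy.1 with h4 | rfl | rfl
      · omega
      · exact absurd c2 h2
      · simp only [map_neg] at c2
        omega
    have s1 := h.symm a x
    have s2 := h.symm b a
    have s3 := h.symm y b
    have s4 := h.symm b x
    have s5 := h.symm y a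
    have s6 := h.symm y x
    have x2 := hx.1
    have a2 := ha.1
    have b2 := hb.1
    have y2 := hy.1
    obtain ⟨s, hs⟩ : ∃ s : ℤ, s = - B x a := ⟨_, rfl⟩
    obtain ⟨t, ht⟩ : ∃ t : ℤ, t = - s * B a b := ⟨_, rfl⟩
    obtain ⟨u, hu⟩ : ∃ u : ℤ, u = - t * B b y := ⟨_, rfl⟩
    refine ⟨x + s • a + t • b + u • y, Or.inr ⟨?_, ?_⟩, ?_, ?_⟩
    · simp only [map_add, map_smul, LinearMap.add_apply, LinearMap.smul_apply, smul_eq_mul]
      rw [s1, s2, s3, s4, s5, s6, x2, a2, b2, y2, c1, c2, c3]
      rcases e1 with e1 | e1 <;> rcases e2 with e2 | e2 <;> rcases e3 with e3 | e3 <;>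
        (rw [e1] at hs; subst hs; rw [e2] at ht; subst ht; rw [e3] at hu; subst hu;
         rw [e1, e2, e3]; norm_num)
    · intro z hz
      simp only [map_add, map_smul, LinearMap.add_apply, LinearMap.smul_apply, smul_eq_mul]
      rw [hx.2 z hz, ha.2 z hz, hb.2 z hz, hy.2 z hz]
      ring
    · simp only [map_add, map_smul, smul_eq_mul]
      rw [x2, c1, c3]
      rcases e1 with e1 | e1 <;> (rw [e1] at hs; subst hs; rw [e1]; norm_num)
    · simp only [map_add, map_smul, LinearMap.add_apply, LinearMap.smul_apply, smul_eq_mul]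
      rw [y2, c2, c3]
      rcases e1 with e1 | e1 <;> rcases e2 with e2 | e2 <;> rcases e3 with e3 | e3 <;>
        (rw [e1] at hs; subst hs; rw [e2] at ht; subst ht; rw [e3] at hu; subst hu;
         rw [e3]; norm_num)

theorem rel_trans (h : PD B) {x y z : V} (hx : x ∈ R B) (hy : y ∈ R B) (hz : z ∈ R B)
    (h1 : rel B x y) (h2 : rel B y z) : rel B x z := by
  obtain ⟨a, ha, a1, a2⟩ := h1
  obtain ⟨b, hb, b1, b2⟩ := h2
  obtain ⟨c, hc, c1, c2⟩ := h.p3 hx ha hy hb a1 a2 b1
  exact h.p3 hx hc hb hz c1 c2 b2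

theorem orth (h : PD B) {x y : V} (hx : x ∈ R B) (hxy : ¬ rel B x y) : B x y = 0 := by
  by_contra hne
  exact hxy ⟨x, hx, h.self_ne hx, hne⟩

theorem span_R (h : PD B) (hg : Submodule.span ℤ {x : V | B x x ≤ 2} = ⊤) :
    Submodule.span ℤ (R B) = ⊤ := by
  rw [eq_top_iff, ← hg, Submodule.span_le]
  intro x hx
  have hx' : B x x ≤ 2 := hx
  have h0 := h.nonneg x
  rcases (by omega : B x x = 0 ∨ B x x = 1 ∨ B x x = 2) with h1 | h1 | h1
  · rw [h.eq_zero h1]; exact Submodule.zero_mem _
  · exact Submodule.subset_span (Or.inl h1)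
  · by_cases h2 : ∀ y, B y y = 1 → B x y = 0
    · exact Submodule.subset_span (Or.inr ⟨h1, h2⟩)
    · push Not at h2
      obtain ⟨y, hy, hxy⟩ := h2
      have h3 := h.cs x y
      rw [h1, hy] at h3
      have h4 : -1 ≤ B x y := by nlinarith
      have h5 : B x y ≤ 1 := by nlinarith
      have hs := h.symm y x
      rcases (by omega : B x y = 1 ∨ B x y = -1) with h6 | h6
      · have h7 : B (x - y) (x - y) = 1 := by
          simp only [map_sub, LinearMap.sub_apply]; omega
        have : x = (x - y) + y := by abel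
        rw [this]
        exact Submodule.add_mem _ (Submodule.subset_span (Or.inl h7))
          (Submodule.subset_span (Or.inl hy))
      · have h7 : B (x + y) (x + y) = 1 := by
          simp only [map_add, LinearMap.add_apply]; omega
        have : x = (x + y) - y := by abel
        rw [this]
        exact Submodule.sub_mem _ (Submodule.subset_span (Or.inl h7))
          (Submodule.subset_span (Or.inl hy))

/-- Finiteness of the classes. -/
theorem class_finite (h : PD B)
    (hlf : ∀ x ∈ R2 B, {y | y ∈ R2 B ∧ B x y ≠ 0}.Finite) {x : V} (hx : x ∈ R B) :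
    {y | y ∈ R B ∧ rel B x y}.Finite := by
  have hN : ∀ x ∈ R B, {y | y ∈ R B ∧ B x y ≠ 0}.Finite := by
    intro x hx
    rcases hx with hx | hx
    · refine (Set.toFinite {x, -x}).subset ?_
      rintro y ⟨hy | hy, hxy⟩
      · exact h.one_one hx hy hxy
      · exact absurd (h.cross hx hy) hxy
    · refine (hlf x hx).subset ?_
      rintro y ⟨hy | hy, hxy⟩
      · exact absurd (hx.2 y hy) hxy
      · exact ⟨hy, hxy⟩
  refine ((hN x hx).biUnion (t := fun z => {y | y ∈ R B ∧ B z y ≠ 0})
    fun z hz => hN z hz.1).subset ?_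
  rintro y ⟨hy, z, hz, h1, h2⟩
  simp only [Set.mem_iUnion, Set.mem_ofPred_eq]
  exact ⟨z, ⟨hz, h1⟩, hy, h2⟩

end PD

end Pool.Agent.U450.RL
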