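import Pool.Agent.U450.RL.Lat

set_option autoImplicit false

/-! Local finiteness of the set of indecomposable vectors of norm two. -/

namespace Pool.Agent.U450.RL

open Finsupp

variable {I : Type*} {B : (I →₀ ℤ) →ₗ[ℤ] (I →₀ ℤ) →ₗ[ℤ] ℤ}

theorem form_eq_zero (x y : I →₀ ℤ)
    (H : ∀ i ∈ x.support, ∀ j ∈ y.support, B (single i 1) (single j 1) = 0) : B x y = 0 := by
  have hx : x = ∑ i ∈ x.support, x i • single i (1 : ℤ) := by
    conv_lhs => rw [← Finsupp.sum_single x]
    refine Finset.sum_congr rfl fun i _ => ?_
    simp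
  have hy : y = ∑ i ∈ y.support, y i • single i (1 : ℤ) := by
    conv_lhs => rw [← Finsupp.sum_single y]
    refine Finset.sum_congr rfl fun i _ => ?_
    simp
  rw [hx, hy]
  simp only [map_sum, map_smul, LinearMap.sum_apply, LinearMap.smul_apply, smul_eq_mul]
  refine Finset.sum_eq_zero fun i hi => ?_
  rw [Finset.sum_eq_zero fun j hj => by rw [H j hj i hi, mul_zero], mul_zero]

theorem edge (h : PD B) {y : I →₀ ℤ} (hy : y ∈ R2 B) (A : Finset I)
    (hA : ∃ i ∈ A, i ∈ y.support) (hA' : ∃ i ∉ A, i ∈ y.support) :
    ∃ i ∈ A, ∃ j ∉ A, i ∈ y.support ∧ j ∈ y.support ∧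
      B (single i 1) (single j 1) ≠ 0 := by
  classical
  by_contra hcon
  push Not at hcon
  set a := y.filter (· ∈ A) with ha
  set b := y.filter (fun i => ¬ i ∈ A) with hb
  have hab : a + b = y := Finsupp.filter_add_filter_not y _
  have h0 : B a b = 0 := by
    refine form_eq_zero a b fun i hi j hj => ?_
    rw [ha, Finsupp.support_filter, Finset.mem_filter] at hi
    rw [hb, Finsupp.support_filter, Finset.mem_filter] at hj
    exact hcon i hi.2 j hj.2 hi.1 hj.1
  have ha0 : a ≠ 0 := by
    obtain ⟨i, h1, h2⟩ := hA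
    intro h3
    have h4 : a i = y i := Finsupp.filter_apply_pos _ _ h1
    rw [h3] at h4
    rw [Finsupp.mem_support_iff, ← h4] at h2
    exact h2 rfl
  have hb0 : b ≠ 0 := by
    obtain ⟨i, h1, h2⟩ := hA'
    intro h3
    have h4 : b i = y i := Finsupp.filter_apply_pos _ _ h1
    rw [h3] at h4
    rw [Finsupp.mem_support_iff, ← h4] at h2
    exact h2 rfl
  have p1 := h.pos a ha0
  have p2 := h.pos b hb0
  have h0' : B b a = 0 := by rw [h.symm]; exact h0
  have h2 := hy.1
  rw [← hab] at h2
  simp only [map_add, LinearMap.add_apply] at h2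
  have h3 : B a a = 1 := by omega
  have h4 := hy.2 a h3
  rw [← hab] at h4
  simp only [map_add, LinearMap.add_apply] at h4
  omega

/-- the neighbourhood of a finite set -/
noncomputable def nb [DecidableEq I] (N : I → Finset I) (S : Finset I) : Finset I :=
  S ∪ S.biUnion N

theorem nb_mono [DecidableEq I] (N : I → Finset I) (S : Finset I) {k l : ℕ} (hkl : k ≤ l) :
    (nb N)^[k] S ⊆ (nb N)^[l] S := by
  induction l, hkl using Nat.le_induction with
  | base => exact subset_rfl
  | succ l _ ih =>
    rw [Function.iterate_succ_apply']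
    exact ih.trans Finset.subset_union_left

theorem lf [DecidableEq I] (h : PD B) (N : I → Finset I)
    (hN : ∀ i j, B (single i 1) (single j 1) ≠ 0 → j ∈ N i) (C : ℕ)
    (hC : ∀ (x : I →₀ ℤ) (T : Finset I), ∑ t ∈ T, (x t) ^ 2 ≤ C * B x x) (x : I →₀ ℤ) :
    {y | y ∈ R2 B ∧ B x y ≠ 0}.Finite := by
  set S : Finset I := nb N x.support with hS
  have key : ∀ y, y ∈ R2 B → B x y ≠ 0 →
      y.support ⊆ (nb N)^[2 * C] S ∧ ∀ t, |y t| ≤ 2 * C := by
    intro y hy hxy
    have hcard : y.support.card ≤ 2 * C := by
      have h1 := hC y y.support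
      rw [hy.1] at h1
      have h2 : (y.support.card : ℤ) ≤ ∑ t ∈ y.support, (y t) ^ 2 := by
        rw [Finset.card_eq_sum_ones]
        push_cast
        refine Finset.sum_le_sum fun t ht => ?_
        have : y t ≠ 0 := by simpa using ht
        have := sq_nonneg (y t)
        have h3 : (y t) ^ 2 ≠ 0 := pow_ne_zero 2 ‹_›
        omega
      have h3 : (y.support.card : ℤ) ≤ (2 * C : ℕ) := by push_cast; linarith
      exact_mod_cast h3
    have hmeet : ∃ j ∈ S, j ∈ y.support := by
      by_contra hcon
      push Not at hcon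
      refine hxy (form_eq_zero x y fun i hi j hj => ?_)
      by_contra hne
      refine hcon j ?_ hj
      rw [hS, nb]
      exact Finset.mem_union_right _ (Finset.mem_biUnion.2 ⟨i, hi, hN i j hne⟩)
    have hstep : ∀ k, y.support ⊆ (nb N)^[k] S ∨
        k + 1 ≤ (y.support ∩ (nb N)^[k] S).card := by
      intro k
      induction k with
      | zero =>
        right
        obtain ⟨j, h1, h2⟩ := hmeet
        exact Finset.card_pos.2 ⟨j, Finset.mem_inter.2 ⟨h2, h1⟩⟩
      | succ k ih =>
        rcases ih with ih | ih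
        · left
          exact ih.trans (nb_mono N S (Nat.le_succ k))
        · by_cases hsub : y.support ⊆ (nb N)^[k] S
          · left
            exact hsub.trans (nb_mono N S (Nat.le_succ k))
          · right
            obtain ⟨j₀, hj₀, hj₀'⟩ := Finset.not_subset.1 hsub
            have hne : (y.support ∩ (nb N)^[k] S).Nonempty := by
              rw [← Finset.card_pos]; omega
            obtain ⟨i₀, hi₀⟩ := hne
            rw [Finset.mem_inter] at hi₀
            obtain ⟨i, hi, j, hj, hi', hj', hij⟩ := edge h hy ((nb N)^[k] S)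
              ⟨i₀, hi₀.2, hi₀.1⟩ ⟨j₀, hj₀', hj₀⟩
            have hsub2 : insert j (y.support ∩ (nb N)^[k] S) ⊆
                y.support ∩ (nb N)^[k + 1] S := by
              intro t ht
              rw [Finset.mem_insert] at ht
              rcases ht with rfl | ht
              · refine Finset.mem_inter.2 ⟨hj', ?_⟩
                rw [Function.iterate_succ_apply', nb]
                exact Finset.mem_union_right _ (Finset.mem_biUnion.2 ⟨i, hi, hN i _ hij⟩)
              · rw [Finset.mem_inter] at ht ⊢
                exact ⟨ht.1, nb_mono N S (Nat.le_succ k) ht.2⟩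
            have hcc := Finset.card_le_card hsub2
            rw [Finset.card_insert_of_notMem (fun hh => hj (Finset.mem_inter.1 hh).2)] at hcc
            omega
    refine ⟨?_, ?_⟩
    · rcases hstep y.support.card with h1 | h1
      · exact h1.trans (nb_mono N S hcard)
      · have := Finset.card_le_card (Finset.inter_subset_left (s₁ := y.support)
          (s₂ := (nb N)^[y.support.card] S))
        omega
    · intro t
      have h1 := hC y {t}
      rw [Finset.sum_singleton, hy.1] at h1
      rw [abs_le]
      constructor <;> nlinarith [sq_nonneg (y t), sq_nonneg (y t + 1), sq_nonneg (y t - 1),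
        sq_nonneg (y t)]
  set T : Finset I := (nb N)^[2 * C] S with hT
  let f : I →₀ ℤ := Finsupp.indicator T fun _ _ => (2 * C : ℤ)
  refine (Set.finite_Icc (-f) f).subset ?_
  rintro y ⟨hy, hxy⟩
  obtain ⟨h1, h2⟩ := key y hy hxy
  have hf : ∀ t, |y t| ≤ f t := by
    intro t
    by_cases ht : t ∈ T
    · rw [Finsupp.indicator_of_mem ht]; exact h2 t
    · rw [Finsupp.indicator_of_notMem ht]
      have : y t = 0 := by
        by_contra h3
        exact ht (h1 (Finsupp.mem_support_iff.2 h3))
      rw [this]; simp
  refine ⟨fun t => ?_, fun t => ?_⟩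
  · have := (abs_le.1 (hf t)).1
    simpa using this
  · exact (abs_le.1 (hf t)).2

end Pool.Agent.U450.RL
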