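import Pool.Agent.U450.RL.Lf

set_option autoImplicit false

/-! Local finiteness in lattices with coordinates in which vectors can be cut along gaps. -/

namespace Pool.Agent.U450.RL

variable {I : Type*} {V : Type*} [AddCommGroup V] {B : V →ₗ[ℤ] V →ₗ[ℤ] ℤ}

theorem edge' (h : PD B) (φ : V →ₗ[ℤ] (I →₀ ℤ)) (N : I → Finset I)
    (h1 : ∀ x y, B x y ≠ 0 → ∃ i ∈ (φ x).support, ∃ j ∈ (φ y).support, j ∈ N i)
    (h2 : ∀ (y : V) (A : Finset I),
      (∀ i ∈ A, ∀ j ∉ A, i ∈ (φ y).support → j ∈ (φ y).support → j ∉ N i) →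
      ∃ a b, a + b = y ∧ (∀ i ∈ A, φ a i = φ y i) ∧ (∀ i ∉ A, φ a i = 0) ∧
        (∀ i ∈ A, φ b i = 0) ∧ ∀ i ∉ A, φ b i = φ y i)
    {y : V} (hy : y ∈ R2 B) (A : Finset I)
    (hA : ∃ i ∈ A, i ∈ (φ y).support) (hA' : ∃ i ∉ A, i ∈ (φ y).support) :
    ∃ i ∈ A, ∃ j ∉ A, i ∈ (φ y).support ∧ j ∈ (φ y).support ∧ j ∈ N i := by
  by_contra hcon
  push Not at hcon
  obtain ⟨a, b, hab, a1, a2, b1, b2⟩ := h2 y A hcon
  have sa : ∀ i, i ∈ (φ a).support → i ∈ A ∧ i ∈ (φ y).support := by
    intro i hi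
    rw [Finsupp.mem_support_iff] at hi
    by_cases h3 : i ∈ A
    · exact ⟨h3, by rw [Finsupp.mem_support_iff, ← a1 i h3]; exact hi⟩
    · exact absurd (a2 i h3) hi
  have sb : ∀ i, i ∈ (φ b).support → i ∉ A ∧ i ∈ (φ y).support := by
    intro i hi
    rw [Finsupp.mem_support_iff] at hi
    by_cases h3 : i ∈ A
    · exact absurd (b1 i h3) hi
    · exact ⟨h3, by rw [Finsupp.mem_support_iff, ← b2 i h3]; exact hi⟩
  have h0 : B a b = 0 := by
    by_contra hne
    obtain ⟨i, hi, j, hj, hij⟩ := h1 a b hne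
    exact hcon i (sa i hi).1 j (sb j hj).1 (sa i hi).2 (sb j hj).2 hij
  have ha0 : a ≠ 0 := by
    rintro rfl
    obtain ⟨i, h3, h4⟩ := hA
    rw [Finsupp.mem_support_iff, ← a1 i h3, map_zero] at h4
    exact h4 rfl
  have hb0 : b ≠ 0 := by
    rintro rfl
    obtain ⟨i, h3, h4⟩ := hA'
    rw [Finsupp.mem_support_iff, ← b2 i h3, map_zero] at h4
    exact h4 rfl
  have p1 := h.pos a ha0
  have p2 := h.pos b hb0
  have h0' : B b a = 0 := by rw [h.symm]; exact h0
  have h2 := hy.1
  rw [← hab] at h2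
  simp only [map_add, LinearMap.add_apply] at h2
  have h3 : B a a = 1 := by omega
  have h4 := hy.2 a h3
  rw [← hab] at h4
  simp only [map_add, LinearMap.add_apply] at h4
  omega

theorem lfp (h : PD B) (φ : V →ₗ[ℤ] (I →₀ ℤ)) (hφ : Function.Injective φ)
    (N : I → Finset I)
    (h1 : ∀ x y, B x y ≠ 0 → ∃ i ∈ (φ x).support, ∃ j ∈ (φ y).support, j ∈ N i)
    (h2 : ∀ (y : V) (A : Finset I),
      (∀ i ∈ A, ∀ j ∉ A, i ∈ (φ y).support → j ∈ (φ y).support → j ∉ N i) →
      ∃ a b, a + b = y ∧ (∀ i ∈ A, φ a i = φ y i) ∧ (∀ i ∉ A, φ a i = 0) ∧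
        (∀ i ∈ A, φ b i = 0) ∧ ∀ i ∉ A, φ b i = φ y i) (C : ℕ)
    (hC : ∀ (x : V) (T : Finset I), ∑ t ∈ T, (φ x t) ^ 2 ≤ C * B x x) (x : V) :
    {y | y ∈ R2 B ∧ B x y ≠ 0}.Finite := by
  classical
  set S : Finset I := nb N (φ x).support with hS
  have key : ∀ y, y ∈ R2 B → B x y ≠ 0 →
      (φ y).support ⊆ (nb N)^[2 * C] S ∧ ∀ t, |φ y t| ≤ 2 * C := by
    intro y hy hxy
    have hcard : (φ y).support.card ≤ 2 * C := by
      have h1 := hC y (φ y).support
      rw [hy.1] at h1
      have h2 : ((φ y).support.card : ℤ) ≤ ∑ t ∈ (φ y).support, (φ y t) ^ 2 := by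
        rw [Finset.card_eq_sum_ones]
        push_cast
        refine Finset.sum_le_sum fun t ht => ?_
        have : φ y t ≠ 0 := by simpa using ht
        have := sq_nonneg (φ y t)
        have h3 : (φ y t) ^ 2 ≠ 0 := pow_ne_zero 2 ‹_›
        omega
      have h3 : ((φ y).support.card : ℤ) ≤ (2 * C : ℕ) := by push_cast; linarith
      exact_mod_cast h3
    have hmeet : ∃ j ∈ S, j ∈ (φ y).support := by
      obtain ⟨i, hi, j, hj, hij⟩ := h1 x y hxy
      refine ⟨j, ?_, hj⟩
      rw [hS, nb]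
      exact Finset.mem_union_right _ (Finset.mem_biUnion.2 ⟨i, hi, hij⟩)
    have hstep : ∀ k, (φ y).support ⊆ (nb N)^[k] S ∨
        k + 1 ≤ ((φ y).support ∩ (nb N)^[k] S).card := by
      intro k
      induction k with
      | zero =>
        right
        obtain ⟨j, h1, h2⟩ := hmeet
        exact Finset.card_pos.2 ⟨j, Finset.mem_inter.2 ⟨h2, h1⟩⟩
      | succ k ih =>
        rcases ih with ih | ih
        · left
          exact ih.trans (nb_mono N S (Nat.le_succ k))
        · by_cases hsub : (φ y).support ⊆ (nb N)^[k] S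
          · left
            exact hsub.trans (nb_mono N S (Nat.le_succ k))
          · right
            obtain ⟨j₀, hj₀, hj₀'⟩ := Finset.not_subset.1 hsub
            have hne : ((φ y).support ∩ (nb N)^[k] S).Nonempty := by
              rw [← Finset.card_pos]; omega
            obtain ⟨i₀, hi₀⟩ := hne
            rw [Finset.mem_inter] at hi₀
            obtain ⟨i, hi, j, hj, hi', hj', hij⟩ := edge' h φ N h1 h2 hy ((nb N)^[k] S)
              ⟨i₀, hi₀.2, hi₀.1⟩ ⟨j₀, hj₀', hj₀⟩
            have hsub2 : insert j ((φ y).support ∩ (nb N)^[k] S) ⊆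
                (φ y).support ∩ (nb N)^[k + 1] S := by
              intro t ht
              rw [Finset.mem_insert] at ht
              rcases ht with rfl | ht
              · refine Finset.mem_inter.2 ⟨hj', ?_⟩
                rw [Function.iterate_succ_apply', nb]
                exact Finset.mem_union_right _ (Finset.mem_biUnion.2 ⟨i, hi, hij⟩)
              · rw [Finset.mem_inter] at ht ⊢
                exact ⟨ht.1, nb_mono N S (Nat.le_succ k) ht.2⟩
            have hcc := Finset.card_le_card hsub2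
            rw [Finset.card_insert_of_notMem (fun hh => hj (Finset.mem_inter.1 hh).2)] at hcc
            omega
    refine ⟨?_, ?_⟩
    · rcases hstep (φ y).support.card with h1 | h1
      · exact h1.trans (nb_mono N S hcard)
      · have := Finset.card_le_card (Finset.inter_subset_left (s₁ := (φ y).support)
          (s₂ := (nb N)^[(φ y).support.card] S))
        omega
    · intro t
      have h1 := hC y {t}
      rw [Finset.sum_singleton, hy.1] at h1
      rw [abs_le]
      constructor <;> nlinarith [sq_nonneg (φ y t), sq_nonneg (φ y t + 1), sq_nonneg (φ y t - 1)]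
  set T : Finset I := (nb N)^[2 * C] S with hT
  let f : I →₀ ℤ := Finsupp.indicator T fun _ _ => (2 * C : ℤ)
  refine ((Set.finite_Icc (-f) f).preimage (f := φ) hφ.injOn).subset ?_
  rintro y ⟨hy, hxy⟩
  obtain ⟨h1, h2⟩ := key y hy hxy
  have hf : ∀ t, |φ y t| ≤ f t := by
    intro t
    by_cases ht : t ∈ T
    · rw [Finsupp.indicator_of_mem ht]; exact h2 t
    · rw [Finsupp.indicator_of_notMem ht]
      have : φ y t = 0 := by
        by_contra h3
        exact ht (h1 (Finsupp.mem_support_iff.2 h3))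
      rw [this]; simp
  refine ⟨fun t => ?_, fun t => ?_⟩
  · have := (abs_le.1 (hf t)).1
    simpa using this
  · exact (abs_le.1 (hf t)).2

end Pool.Agent.U450.RL
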